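import Mathlib

/-!
Joints of lines in simple matroids: an upper bound for the number of joints of dimension at
least four.
-/

set_option autoImplicit false

namespace Pool.Agent.H644R3.Joints

open Set Matroid

variable {α : Type*}

/-- `M` is simple: it has no loops and no parallel pairs. -/
def IsSimple (M : Matroid α) : Prop := ∀ a ∈ M.E, ∀ b ∈ M.E, M.Indep {a, b}

/-- A line of `M` is a flat of rank two. -/
def IsLine (M : Matroid α) (l : Set α) : Prop := M.IsFlat l ∧ M.eRk l = 2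

/-- `x` is an `n`-dimensional joint of the family `L` of lines. -/
def IsJoint (M : Matroid α) (n : ℕ) (L : Set (Set α)) (x : α) : Prop :=
  x ∈ M.E ∧ ∃ l : Fin n → Set α, (∀ i, l i ∈ L ∧ x ∈ l i) ∧ (n : ℕ∞) + 1 ≤ M.eRk (⋃ i, l i)

theorem line_subset {M : Matroid α} (hM : IsSimple M) {l F : Set α} (hl : IsLine M l)
    (hF : M.IsFlat F) {x y : α} (hxy : x ≠ y) (hx : x ∈ l) (hy : y ∈ l) (hxF : x ∈ F)
    (hyF : y ∈ F) : l ⊆ F := by
  have hxE := hl.1.subset_ground hx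
  have hyE := hl.1.subset_ground hy
  have hind := hM x hxE y hyE
  have hsub : ({x, y} : Set α) ⊆ l := by
    intro a ha
    rcases ha with rfl | rfl <;> assumption
  have hb : M.IsBasis {x, y} l := hind.isBasis_of_eRk_ge (by simp) hsub
    (by rw [hl.2, hind.eRk_eq_encard, encard_pair hxy]) hl.1.subset_ground
  refine hb.subset_closure.trans ?_
  have hsub' : ({x, y} : Set α) ⊆ F := by
    intro a ha
    rcases ha with rfl | rfl <;> assumption
  have := M.closure_subset_closure hsub'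
  rwa [hF.closure] at this

section Count

open Classical

variable (M : Matroid α) (J : Finset α) (L : Finset (Set α)) (A : α → Finset (Set α))

/-- lines reachable in one step -/
noncomputable def step (F : Set α) (R : Finset (Set α)) (l : Set α) : Finset (Set α) :=
  L.filter fun m' => ¬ m' ⊆ F ∧ ∃ m ∈ R, ∃ x ∈ J, m ∈ A x ∧ m' ∈ A x ∧
    ∃ y ∈ J, y ≠ x ∧ m' ∈ A y ∧ l ∈ A y

/-- weighted number of configurations -/
noncomputable def W : ℕ → Set α → Finset (Set α) → ℕ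
  | 0, _, R => R.card
  | i + 1, F, R => ∑ l ∈ L, W i (M.closure (F ∪ l)) (step J L A F R l)

variable {M J L A} {n δ : ℕ}

/-- joints on the lines of `R` -/
noncomputable def cov (J : Finset α) (A : α → Finset (Set α)) (R : Finset (Set α)) : Finset α :=
  J.filter fun x => ∃ m ∈ R, m ∈ A x

theorem card_cov (hA : ∀ x ∈ J, (A x).card ≤ n)
    (hδ : ∀ m ∈ L, δ ≤ (J.filter fun x => m ∈ A x).card) {R : Finset (Set α)} (hR : R ⊆ L) :
    R.card * δ ≤ n * (cov J A R).card := by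
  have h1 : R.card * δ ≤ ∑ m ∈ R, (J.filter fun x => m ∈ A x).card := by
    rw [← smul_eq_mul]
    exact Finset.card_nsmul_le_sum _ _ _ fun m hm => hδ m (hR hm)
  have h2 : ∑ m ∈ R, (J.filter fun x => m ∈ A x).card
      = ∑ m ∈ R, ((cov J A R).filter fun x => m ∈ A x).card := by
    refine Finset.sum_congr rfl fun m hm => ?_
    congr 1
    ext x
    simp only [cov, Finset.mem_filter]
    constructor
    · rintro ⟨h, h'⟩
      exact ⟨⟨h, m, hm, h'⟩, h'⟩
    · rintro ⟨⟨h, -⟩, h'⟩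
      exact ⟨h, h'⟩
  have h3 : ∑ m ∈ R, ((cov J A R).filter fun x => m ∈ A x).card
      = ∑ x ∈ cov J A R, (R.filter fun m => m ∈ A x).card := by
    simp only [Finset.card_filter]
    exact Finset.sum_comm
  have h4 : ∑ x ∈ cov J A R, (R.filter fun m => m ∈ A x).card ≤ (cov J A R).card * n := by
    rw [← smul_eq_mul]
    refine Finset.sum_le_card_nsmul _ _ _ fun x hx => ?_
    refine (Finset.card_le_card ?_).trans (hA x (Finset.mem_filter.1 hx).1)
    intro m hm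
    exact (Finset.mem_filter.1 hm).2
  rw [mul_comm n]
  omega

theorem card_cov_le (hM : IsSimple M) (hL : ∀ l ∈ L, IsLine M l)
    (hA : ∀ x ∈ J, A x ⊆ L ∧ ∀ l ∈ A x, x ∈ l)
    (hex : ∀ x ∈ J, ∀ F, M.IsFlat F → M.eRk F ≤ n → ∃ l ∈ A x, ¬ l ⊆ F)
    {F : Set α} (hF : M.IsFlat F) (hFn : M.eRk F ≤ n) {R : Finset (Set α)}
    (hRF : ∀ m ∈ R, m ⊆ F) : (cov J A R).card ≤ L.card := by
  have hex' : ∀ x, ∃ l, x ∈ J → l ∈ A x ∧ ¬ l ⊆ F := by
    intro x
    by_cases hx : x ∈ J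
    · obtain ⟨l, hl⟩ := hex x hx F hF hFn
      exact ⟨l, fun _ => hl⟩
    · exact ⟨∅, fun h => absurd h hx⟩
  choose φ hφ using hex'
  have hcF : ∀ x ∈ cov J A R, x ∈ J ∧ x ∈ F := by
    intro x hx
    obtain ⟨hxJ, m, hm, hmx⟩ := Finset.mem_filter.1 hx
    exact ⟨hxJ, hRF m hm ((hA x hxJ).2 m hmx)⟩
  apply Finset.card_le_card_of_injOn φ
  · intro x hx
    exact (hA x (hcF x hx).1).1 (hφ x (hcF x hx).1).1
  · intro x hx x' hx' h
    by_contra hne
    obtain ⟨h1, h2⟩ := hφ x (hcF x hx).1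
    obtain ⟨h3, h4⟩ := hφ x' (hcF x' hx').1
    apply h2
    refine line_subset hM (hL _ ((hA x (hcF x hx).1).1 h1)) hF hne
      ((hA x (hcF x hx).1).2 _ h1) ?_ (hcF x hx).2 (hcF x' hx').2
    rw [h]
    exact (hA x' (hcF x' hx').1).2 _ h3

theorem step_count (hM : IsSimple M) (hn : 2 ≤ n) (hL : ∀ l ∈ L, IsLine M l)
    (hA : ∀ x ∈ J, A x ⊆ L ∧ ∀ l ∈ A x, x ∈ l)
    (hδ : ∀ m ∈ L, δ ≤ (J.filter fun x => m ∈ A x).card)
    (hex : ∀ x ∈ J, ∀ F, M.IsFlat F → M.eRk F ≤ n → ∃ l ∈ A x, ¬ l ⊆ F)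
    {F : Set α} (hF : M.IsFlat F) (hFn : M.eRk F ≤ n) {R : Finset (Set α)}
    (hRF : ∀ m ∈ R, m ⊆ F) :
    (cov J A R).card * (δ - 1) ≤ ∑ l ∈ L, (step J L A F R l).card := by
  have hex' : ∀ x, ∃ l, x ∈ J → l ∈ A x ∧ ¬ l ⊆ F := by
    intro x
    by_cases hx : x ∈ J
    · obtain ⟨l, hl⟩ := hex x hx F hF hFn
      exact ⟨l, fun _ => hl⟩
    · exact ⟨∅, fun h => absurd h hx⟩
  choose φ hφ using hex'
  have hex'' : ∀ x y, ∃ l, x ∈ J → y ∈ J → φ x ∈ A y → l ∈ A y ∧ ¬ l ⊆ φ x := by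
    intro x y
    by_cases h : x ∈ J ∧ y ∈ J ∧ φ x ∈ A y
    · have hl := hL _ ((hA y h.2.1).1 h.2.2)
      obtain ⟨l, hl⟩ := hex y h.2.1 (φ x) hl.1 (by rw [hl.2]; exact_mod_cast hn)
      exact ⟨l, fun _ _ _ => hl⟩
    · exact ⟨∅, fun h1 h2 h3 => absurd ⟨h1, h2, h3⟩ h⟩
  choose ψ hψ using hex''
  have hcF : ∀ x ∈ cov J A R, x ∈ J ∧ x ∈ F := by
    intro x hx
    obtain ⟨hxJ, m, hm, hmx⟩ := Finset.mem_filter.1 hx
    exact ⟨hxJ, hRF m hm ((hA x hxJ).2 m hmx)⟩
  have h1 : (cov J A R).card * (δ - 1)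
      ≤ ((cov J A R).sigma fun x => (J.filter fun y => φ x ∈ A y).erase x).card := by
    rw [Finset.card_sigma, ← smul_eq_mul]
    refine Finset.card_nsmul_le_sum _ _ _ fun x hx => ?_
    have h2 := hδ (φ x) ((hA x (hcF x hx).1).1 (hφ x (hcF x hx).1).1)
    have h3 := Finset.pred_card_le_card_erase (s := J.filter fun y => φ x ∈ A y) (a := x)
    omega
  refine h1.trans ?_
  rw [← Finset.card_sigma]
  apply Finset.card_le_card_of_injOn (fun p => ⟨ψ p.1 p.2, φ p.1⟩)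
  · rintro ⟨x, y⟩ hp
    simp only [Finset.coe_sigma, Set.mem_sigma_iff, Finset.mem_coe, Finset.mem_erase,
      Finset.mem_filter, step] at hp ⊢
    obtain ⟨hx, hyx, hyJ, hy⟩ := hp
    obtain ⟨hxJ, m, hm, hmx⟩ := Finset.mem_filter.1 hx
    obtain ⟨h2, h3⟩ := hφ x hxJ
    obtain ⟨h4, h5⟩ := hψ x y hxJ hyJ hy
    exact ⟨(hA y hyJ).1 h4, (hA x hxJ).1 h2, h3, m, hm, x, hxJ, hmx, h2, y, hyJ, hyx, hy, h4⟩
  · rintro ⟨x, y⟩ hp ⟨x', y'⟩ hp' h
    simp only [Finset.coe_sigma, Set.mem_sigma_iff, Finset.mem_coe, Finset.mem_erase,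
      Finset.mem_filter] at hp hp'
    simp only [Sigma.mk.injEq, heq_eq_eq] at h
    obtain ⟨hx, hyx, hyJ, hy⟩ := hp
    obtain ⟨hx', hyx', hyJ', hy'⟩ := hp'
    obtain ⟨hxJ, hxF⟩ := hcF x hx
    obtain ⟨hxJ', hxF'⟩ := hcF x' hx'
    obtain ⟨h2, h3⟩ := hφ x hxJ
    obtain ⟨h2', h3'⟩ := hφ x' hxJ'
    have hxx : x = x' := by
      by_contra hne
      apply h3
      refine line_subset hM (hL _ ((hA x hxJ).1 h2)) hF hne ((hA x hxJ).2 _ h2) ?_ hxF hxF'
      rw [h.2]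
      exact (hA x' hxJ').2 _ h2'
    subst hxx
    obtain ⟨h4, h5⟩ := hψ x y hxJ hyJ hy
    obtain ⟨h4', h5'⟩ := hψ x y' hxJ hyJ' hy'
    have hyy : y = y' := by
      by_contra hne
      apply h5
      refine line_subset hM (hL _ ((hA y hyJ).1 h4)) (hL _ ((hA y hyJ).1 hy)).1 hne
        ((hA y hyJ).2 _ h4) ?_ ((hA y hyJ).2 _ hy) ((hA y' hyJ').2 _ hy')
      rw [h.1]
      exact (hA y' hyJ').2 _ h4'
    subst hyy
    rfl

theorem step_sub (hM : IsSimple M) (hL : ∀ l ∈ L, IsLine M l)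
    (hA : ∀ x ∈ J, A x ⊆ L ∧ ∀ l ∈ A x, x ∈ l)
    {F : Set α} (hF : M.IsFlat F) {R : Finset (Set α)} (hRF : ∀ m ∈ R, m ⊆ F) {l : Set α}
    (hl : l ∈ L) : ∀ m' ∈ step J L A F R l, m' ⊆ M.closure (F ∪ l) := by
  intro m' hm'
  obtain ⟨h1, h2, m, hm, x, hx, hmx, hmx', y, hy, hyx, hmy, hly⟩ := Finset.mem_filter.1 hm'
  have hlE := (hL l hl).1.subset_ground
  have hsub : F ∪ l ⊆ M.closure (F ∪ l) :=
    M.subset_closure _ (Set.union_subset hF.subset_ground hlE)
  refine line_subset hM (hL m' h1) (M.isFlat_closure _) hyx ((hA y hy).2 _ hmy)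
    ((hA x hx).2 _ hmx') (hsub (Or.inr ((hA y hy).2 _ hly)))
    (hsub (Or.inl (hRF m hm ((hA x hx).2 _ hmx))))

theorem upper (hM : IsSimple M) (hL : ∀ l ∈ L, IsLine M l)
    (hA : ∀ x ∈ J, A x ⊆ L ∧ ∀ l ∈ A x, x ∈ l) (hAn : ∀ x ∈ J, (A x).card ≤ n)
    (hδ : ∀ m ∈ L, δ ≤ (J.filter fun x => m ∈ A x).card)
    (hex : ∀ x ∈ J, ∀ F, M.IsFlat F → M.eRk F ≤ n → ∃ l ∈ A x, ¬ l ⊆ F) :
    ∀ (i : ℕ) (F : Set α) (R : Finset (Set α)), M.IsFlat F → M.eRk F + (2 * i : ℕ) ≤ n →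
      R ⊆ L → (∀ m ∈ R, m ⊆ F) → W M J L A i F R * δ ≤ n * L.card ^ (i + 1) := by
  intro i
  induction i with
  | zero =>
    intro F R hF hFn hRL hRF
    have h1 := card_cov (n := n) hAn hδ hRL
    have h2 := card_cov_le hM hL hA hex hF (by simpa using hFn) hRF
    simp only [W, zero_add, pow_one]
    exact h1.trans (Nat.mul_le_mul_left _ h2)
  | succ i ih =>
    intro F R hF hFn hRL hRF
    simp only [W]
    rw [Finset.sum_mul]
    have : n * L.card ^ (i + 1 + 1) = ∑ l ∈ L, n * L.card ^ (i + 1) := by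
      rw [Finset.sum_const, smul_eq_mul]
      ring
    rw [this]
    refine Finset.sum_le_sum fun l hl => ?_
    refine ih _ _ (M.isFlat_closure _) ?_ (Finset.filter_subset _ _)
      (step_sub hM hL hA hF hRF hl)
    rw [eRk_closure_eq]
    have h1 := M.eRk_union_le_eRk_add_eRk F l
    rw [(hL l hl).2] at h1
    refine le_trans ?_ hFn
    calc M.eRk (F ∪ l) + (2 * i : ℕ) ≤ (M.eRk F + 2) + (2 * i : ℕ) := by gcongr
      _ = M.eRk F + (2 * (i + 1) : ℕ) := by push_cast; ring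

theorem lower (hM : IsSimple M) (hn : 2 ≤ n) (hL : ∀ l ∈ L, IsLine M l)
    (hA : ∀ x ∈ J, A x ⊆ L ∧ ∀ l ∈ A x, x ∈ l) (hAn : ∀ x ∈ J, (A x).card ≤ n)
    (hδ : ∀ m ∈ L, δ ≤ (J.filter fun x => m ∈ A x).card)
    (hex : ∀ x ∈ J, ∀ F, M.IsFlat F → M.eRk F ≤ n → ∃ l ∈ A x, ¬ l ⊆ F) :
    ∀ (i : ℕ) (F : Set α) (R : Finset (Set α)), M.IsFlat F → M.eRk F + (2 * i : ℕ) ≤ n →
      R ⊆ L → (∀ m ∈ R, m ⊆ F) → R.card * (δ * (δ - 1)) ^ i ≤ n ^ i * W M J L A i F R := by
  intro i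
  induction i with
  | zero =>
    intro F R hF hFn hRL hRF
    simp [W]
  | succ i ih =>
    intro F R hF hFn hRL hRF
    have hFn' : M.eRk F ≤ n := le_trans le_self_add hFn
    have h1 := card_cov (n := n) hAn hδ hRL
    have h2 := step_count hM hn hL hA hδ hex hF hFn' hRF
    have h3 : R.card * (δ * (δ - 1)) ≤ n * ∑ l ∈ L, (step J L A F R l).card := by
      calc R.card * (δ * (δ - 1)) = (R.card * δ) * (δ - 1) := by ring
        _ ≤ (n * (cov J A R).card) * (δ - 1) := Nat.mul_le_mul_right _ h1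
        _ = n * ((cov J A R).card * (δ - 1)) := by ring
        _ ≤ _ := Nat.mul_le_mul_left _ h2
    calc R.card * (δ * (δ - 1)) ^ (i + 1) = (R.card * (δ * (δ - 1))) * (δ * (δ - 1)) ^ i := by
          ring
      _ ≤ (n * ∑ l ∈ L, (step J L A F R l).card) * (δ * (δ - 1)) ^ i :=
          Nat.mul_le_mul_right _ h3
      _ = n * ∑ l ∈ L, (step J L A F R l).card * (δ * (δ - 1)) ^ i := by
          rw [mul_assoc, Finset.sum_mul]
      _ ≤ n * ∑ l ∈ L, n ^ i * W M J L A i (M.closure (F ∪ l)) (step J L A F R l) := by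
          refine Nat.mul_le_mul_left _ (Finset.sum_le_sum fun l hl => ?_)
          refine ih _ _ (M.isFlat_closure _) ?_ (Finset.filter_subset _ _)
            (step_sub hM hL hA hF hRF hl)
          rw [eRk_closure_eq]
          have h1 := M.eRk_union_le_eRk_add_eRk F l
          rw [(hL l hl).2] at h1
          refine le_trans ?_ hFn
          calc M.eRk (F ∪ l) + (2 * i : ℕ) ≤ (M.eRk F + 2) + (2 * i : ℕ) := by gcongr
            _ = M.eRk F + (2 * (i + 1) : ℕ) := by push_cast; ring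
      _ = n ^ (i + 1) * W M J L A (i + 1) F R := by
          simp only [W]
          rw [← Finset.mul_sum]
          ring

theorem regular (J : Finset α) (L : Finset (Set α)) (A : α → Finset (Set α))
    (hA : ∀ x ∈ J, A x ⊆ L ∧ (A x).Nonempty) (hL : L.Nonempty) :
    ∃ L' ⊆ L, L'.Nonempty ∧ ∀ m ∈ L',
      J.card ≤ ((J.filter fun x => A x ⊆ L').filter fun x => m ∈ A x).card * L.card := by
  let S := L.powerset.filter fun L' => L'.Nonempty ∧
    J.card * L'.card ≤ (J.filter fun x => A x ⊆ L').card * L.card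
  have hS : S.Nonempty := by
    refine ⟨L, Finset.mem_filter.2 ⟨Finset.mem_powerset.2 le_rfl, hL, ?_⟩⟩
    rw [Finset.filter_true_of_mem fun x hx => (hA x hx).1]
  obtain ⟨L', hL', hmin⟩ := Finset.exists_min_image S Finset.card hS
  obtain ⟨hsub, hne, hcard⟩ := Finset.mem_filter.1 hL'
  rw [Finset.mem_powerset] at hsub
  refine ⟨L', hsub, hne, fun m hm => ?_⟩
  have h1 : (J.filter fun x => A x ⊆ L'.erase m).card * L.card ≤ J.card * (L'.card - 1) := by
    by_cases he : (L'.erase m).Nonempty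
    · by_contra hcon
      have : L'.erase m ∈ S := by
        refine Finset.mem_filter.2 ⟨Finset.mem_powerset.2 ((Finset.erase_subset _ _).trans hsub),
          he, ?_⟩
        rw [Finset.card_erase_of_mem hm]
        omega
      have h2 := hmin _ this
      have h3 := Finset.card_erase_lt_of_mem hm
      omega
    · rw [Finset.not_nonempty_iff_eq_empty] at he
      have : (J.filter fun x => A x ⊆ L'.erase m) = ∅ := by
        rw [he]
        apply Finset.filter_false_of_mem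
        intro x hx h
        rw [Finset.subset_empty] at h
        exact (hA x hx).2.ne_empty h
      rw [this]
      simp
  have h2 : (J.filter fun x => A x ⊆ L').card
      = (J.filter fun x => A x ⊆ L'.erase m).card
        + ((J.filter fun x => A x ⊆ L').filter fun x => m ∈ A x).card := by
    have h3 := Finset.card_filter_add_card_filter_not (s := J.filter fun x => A x ⊆ L')
      (fun x => m ∈ A x)
    have h4 : ((J.filter fun x => A x ⊆ L').filter fun x => ¬ m ∈ A x)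
        = (J.filter fun x => A x ⊆ L'.erase m) := by
      ext x
      simp only [Finset.mem_filter]
      constructor
      · rintro ⟨⟨h, h'⟩, h''⟩
        refine ⟨h, fun l hl => Finset.mem_erase.2 ⟨?_, h' hl⟩⟩
        rintro rfl
        exact h'' hl
      · rintro ⟨h, h'⟩
        refine ⟨⟨h, h'.trans (Finset.erase_subset _ _)⟩, fun h'' => ?_⟩
        exact absurd rfl (Finset.mem_erase.1 (h' h'')).1
    rw [h4] at h3
    omega
  have h3 : 1 ≤ L'.card := Finset.card_pos.2 hne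
  obtain ⟨c, hc⟩ : ∃ c, L'.card = c + 1 := ⟨L'.card - 1, by omega⟩
  rw [hc] at hcard h1
  rw [h2] at hcard
  simp only [Nat.add_sub_cancel] at h1
  nlinarith

theorem main (hM : IsSimple M) (k : ℕ) (hkn : 2 * k + 2 ≤ n) (hL : ∀ l ∈ L, IsLine M l)
    (hJ : ∀ x ∈ J, IsJoint M n (L : Set (Set α)) x) :
    J.card ^ (2 * k + 1) ≤ 2 ^ k * n ^ (k + 1) * L.card ^ (3 * k + 2) := by
  rcases J.eq_empty_or_nonempty with rfl | hJne
  · simp
  have hn : 2 ≤ n := by omega
  -- choice of the lines at the joints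
  have hch : ∀ x, ∃ B : Finset (Set α), x ∈ J → (B ⊆ L ∧ (∀ l ∈ B, x ∈ l) ∧ B.card ≤ n ∧
      ∀ F, M.IsFlat F → M.eRk F ≤ n → ∃ l ∈ B, ¬ l ⊆ F) := by
    intro x
    by_cases hx : x ∈ J
    · obtain ⟨-, l, hl, hr⟩ := hJ x hx
      refine ⟨Finset.univ.image l, fun _ => ⟨?_, ?_, ?_, ?_⟩⟩
      · intro m hm
        obtain ⟨i, -, rfl⟩ := Finset.mem_image.1 hm
        exact (hl i).1
      · intro m hm
        obtain ⟨i, -, rfl⟩ := Finset.mem_image.1 hm
        exact (hl i).2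
      · exact Finset.card_image_le.trans (by simp)
      · intro F hF hFn
        by_contra hcon
        push Not at hcon
        have h1 : (⋃ i, l i) ⊆ F := by
          apply Set.iUnion_subset
          intro i
          exact hcon _ (Finset.mem_image_of_mem _ (Finset.mem_univ i))
        have h2 := (hr.trans (M.eRk_mono h1)).trans hFn
        have h3 : ((n + 1 : ℕ) : ℕ∞) ≤ (n : ℕ) := by exact_mod_cast h2
        rw [Nat.cast_le] at h3
        omega
    · exact ⟨∅, fun h => absurd h hx⟩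
  choose A hA using hch
  have hAne : ∀ x ∈ J, (A x).Nonempty := by
    intro x hx
    obtain ⟨l, hl, -⟩ := (hA x hx).2.2.2 (M.closure ∅) (M.isFlat_closure _)
      (by rw [eRk_closure_eq, eRk_empty]; exact zero_le)
    exact ⟨l, hl⟩
  have hLne : L.Nonempty := by
    obtain ⟨x, hx⟩ := hJne
    obtain ⟨l, hl⟩ := hAne x hx
    exact ⟨l, (hA x hx).1 hl⟩
  obtain ⟨L', hL'L, hL'ne, hreg⟩ := regular J L A (fun x hx => ⟨(hA x hx).1, hAne x hx⟩) hLne
  set J' := J.filter fun x => A x ⊆ L' with hJ'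
  obtain ⟨m₀, hm₀, hmin⟩ := Finset.exists_min_image L'
    (fun m => (J'.filter fun x => m ∈ A x).card) hL'ne
  set δ := (J'.filter fun x => m₀ ∈ A x).card with hδ
  have hJδ : J.card ≤ δ * L.card := hreg m₀ hm₀
  have hJJ : ∀ x ∈ J', x ∈ J ∧ A x ⊆ L' := fun x hx => Finset.mem_filter.1 hx
  have hl₀ := hL m₀ (hL'L hm₀)
  have hrk : M.eRk m₀ + (2 * k : ℕ) ≤ n := by
    rw [hl₀.2]
    have : ((2 + 2 * k : ℕ) : ℕ∞) ≤ (n : ℕ) := by
      rw [Nat.cast_le]
      omega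
    exact_mod_cast this
  have hA' : ∀ x ∈ J', A x ⊆ L' ∧ ∀ l ∈ A x, x ∈ l :=
    fun x hx => ⟨(hJJ x hx).2, (hA x (hJJ x hx).1).2.1⟩
  have hex : ∀ x ∈ J', ∀ F, M.IsFlat F → M.eRk F ≤ n → ∃ l ∈ A x, ¬ l ⊆ F :=
    fun x hx => (hA x (hJJ x hx).1).2.2.2
  have hAn : ∀ x ∈ J', (A x).card ≤ n := fun x hx => (hA x (hJJ x hx).1).2.2.1
  have hup := upper hM (fun l hl => hL l (hL'L hl)) hA' hAn (fun m hm => hmin m hm) hex k m₀ {m₀}
    hl₀.1 hrk (by simpa using hm₀) (by simp)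
  have hlo := lower hM hn (fun l hl => hL l (hL'L hl)) hA' hAn (fun m hm => hmin m hm) hex k m₀
    {m₀} hl₀.1 hrk (by simpa using hm₀) (by simp)
  rw [Finset.card_singleton, one_mul] at hlo
  have hL1 : 1 ≤ L.card := Finset.card_pos.2 hLne
  have key : (δ * (δ - 1)) ^ k * δ ≤ n ^ (k + 1) * L.card ^ (k + 1) := by
    calc (δ * (δ - 1)) ^ k * δ ≤ (n ^ k * W M J' L' A k m₀ {m₀}) * δ :=
          Nat.mul_le_mul_right _ hlo
      _ = n ^ k * (W M J' L' A k m₀ {m₀} * δ) := by ring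
      _ ≤ n ^ k * (n * L'.card ^ (k + 1)) := Nat.mul_le_mul_left _ hup
      _ = n ^ (k + 1) * L'.card ^ (k + 1) := by ring
      _ ≤ n ^ (k + 1) * L.card ^ (k + 1) :=
          Nat.mul_le_mul_left _ (Nat.pow_le_pow_left (Finset.card_le_card hL'L) _)
  rcases Nat.lt_or_ge δ 2 with hδ2 | hδ2
  · have h1 : J.card ≤ L.card := by
      refine hJδ.trans ?_
      have : δ ≤ 1 := by omega
      calc δ * L.card ≤ 1 * L.card := Nat.mul_le_mul_right _ this
        _ = L.card := one_mul _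
    calc J.card ^ (2 * k + 1) ≤ L.card ^ (2 * k + 1) := Nat.pow_le_pow_left h1 _
      _ ≤ L.card ^ (3 * k + 2) := Nat.pow_le_pow_right hL1 (by omega)
      _ = 1 * L.card ^ (3 * k + 2) := (one_mul _).symm
      _ ≤ 2 ^ k * n ^ (k + 1) * L.card ^ (3 * k + 2) := by
          apply Nat.mul_le_mul_right
          exact Nat.one_le_iff_ne_zero.2 (by positivity)
  · have h2 : δ ^ (2 * k + 1) ≤ 2 ^ k * ((δ * (δ - 1)) ^ k * δ) := by
      have h3 : δ ≤ 2 * (δ - 1) := by omega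
      calc δ ^ (2 * k + 1) = (δ * δ) ^ k * δ := by ring
        _ ≤ (δ * (2 * (δ - 1))) ^ k * δ := by
            apply Nat.mul_le_mul_right
            apply Nat.pow_le_pow_left
            exact Nat.mul_le_mul_left _ h3
        _ = 2 ^ k * ((δ * (δ - 1)) ^ k * δ) := by
            have h4 : (δ * (2 * (δ - 1))) ^ k = 2 ^ k * (δ * (δ - 1)) ^ k := by
              rw [← mul_pow]
              congr 1
              ring
            rw [h4]
            ring
    calc J.card ^ (2 * k + 1) ≤ (δ * L.card) ^ (2 * k + 1) := Nat.pow_le_pow_left hJδ _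
      _ = δ ^ (2 * k + 1) * L.card ^ (2 * k + 1) := by rw [mul_pow]
      _ ≤ (2 ^ k * (n ^ (k + 1) * L.card ^ (k + 1))) * L.card ^ (2 * k + 1) :=
          Nat.mul_le_mul_right _ (h2.trans (Nat.mul_le_mul_left _ key))
      _ = 2 ^ k * n ^ (k + 1) * L.card ^ (3 * k + 2) := by ring

end Count

end Pool.Agent.H644R3.Joints
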