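import Mathlib
import Pool.Agent.H644R3.Joints

/-!
The matroid of a locally sparse hypergraph: the vertices become lines, the edges become joints.
-/

set_option autoImplicit false

namespace Pool.Agent.H644R3.JMat

open Finset

variable {L : ℕ}

/-- total excess of the edges on a set of vertices -/
def X (H : Finset (Finset (Fin L))) (S : Finset (Fin L)) : ℕ := ∑ e ∈ H, ((e ∩ S).card - 1)

/-- local sparsity -/
structure Good (n K : ℕ) (H : Finset (Finset (Fin L))) : Prop where
  card : ∀ e ∈ H, e.card = n
  one : ∀ S : Finset (Fin L), 2 ≤ S.card → S.card ≤ 2 * K → X H S + 3 ≤ 2 * S.card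
  two : ∀ S : Finset (Fin L), S.card ≤ 2 * K → ∀ e ∈ H, (e ∩ S).Nonempty →
    X H S + (e ∩ S).card + 1 ≤ 2 * S.card
  three : ∀ S : Finset (Fin L), K < S.card → S.card ≤ 2 * K → X H S + (n + 1) ≤ 2 * S.card

/-- the elements: joints and private points -/
abbrev G (L : ℕ) := Finset (Fin L) ⊕ (Fin L × Fin 2)

/-- an element lies on one of the lines of `S` -/
def touch (S : Finset (Fin L)) : G L → Prop
  | .inl e => (e ∩ S).Nonempty
  | .inr q => q.1 ∈ S

instance (S : Finset (Fin L)) : DecidablePred (touch S) := fun x => by
  cases x <;> simp only [touch] <;> infer_instance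

/-- number of elements of `I` on the lines of `S` -/
def cnt (I : Finset (G L)) (S : Finset (Fin L)) : ℕ := (I.filter (touch S)).card

/-- edges meeting `S` and `T` but not `S ∩ T` -/
def cross (H : Finset (Finset (Fin L))) (S T : Finset (Fin L)) : Finset (Finset (Fin L)) :=
  H.filter fun e => (e ∩ S).Nonempty ∧ (e ∩ T).Nonempty ∧ ¬ (e ∩ (S ∩ T)).Nonempty

theorem X_union (H : Finset (Finset (Fin L))) (S T : Finset (Fin L)) :
    X H (S ∪ T) + X H (S ∩ T) = X H S + X H T + (cross H S T).card := by
  unfold X cross
  rw [card_filter, ← sum_add_distrib, ← sum_add_distrib, ← sum_add_distrib]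
  refine sum_congr rfl fun e _ => ?_
  have h1 := card_union_add_card_inter (e ∩ S) (e ∩ T)
  rw [← inter_union_distrib_left, show e ∩ S ∩ (e ∩ T) = e ∩ (S ∩ T) by
    ext x; simp only [mem_inter]; tauto] at h1
  have h2 : (e ∩ S).card ≤ (e ∩ (S ∪ T)).card := card_le_card (by
    intro x; simp only [mem_inter, mem_union]; tauto)
  have h3 : (e ∩ T).card ≤ (e ∩ (S ∪ T)).card := card_le_card (by
    intro x; simp only [mem_inter, mem_union]; tauto)
  have h4 : (e ∩ (S ∩ T)).card ≤ (e ∩ S).card := card_le_card (by
    intro x; simp only [mem_inter]; tauto)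
  have h5 : (e ∩ (S ∩ T)).card ≤ (e ∩ T).card := card_le_card (by
    intro x; simp only [mem_inter]; tauto)
  simp only [← card_pos]
  split_ifs with h <;> omega

theorem touch_union (S T : Finset (Fin L)) (x : G L) :
    touch (S ∪ T) x ↔ touch S x ∨ touch T x := by
  cases x with
  | inl e => simp only [touch, inter_union_distrib_left, union_nonempty]
  | inr q => simp only [touch, mem_union]

theorem cnt_union {H : Finset (Finset (Fin L))} {I : Finset (G L)}
    (hI : I ⊆ H.disjSum univ) (S T : Finset (Fin L)) :
    cnt I S + cnt I T ≤ cnt I (S ∪ T) + cnt I (S ∩ T) + (cross H S T).card := by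
  unfold cnt
  have h1 := card_union_add_card_inter (I.filter (touch S)) (I.filter (touch T))
  have h2 : I.filter (touch S) ∪ I.filter (touch T) = I.filter (touch (S ∪ T)) := by
    ext x
    simp only [mem_union, mem_filter, touch_union]
    tauto
  have h3 : I.filter (touch S) ∩ I.filter (touch T)
      ⊆ I.filter (touch (S ∩ T)) ∪ (cross H S T).map ⟨Sum.inl, Sum.inl_injective⟩ := by
    intro x hx
    simp only [mem_inter, mem_filter] at hx
    obtain ⟨⟨hxI, hS⟩, -, hT⟩ := hx
    rw [mem_union]
    cases x with
    | inl e =>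
      by_cases h : (e ∩ (S ∩ T)).Nonempty
      · exact Or.inl (mem_filter.2 ⟨hxI, h⟩)
      · refine Or.inr (mem_map.2 ⟨e, mem_filter.2 ⟨?_, hS, hT, h⟩, rfl⟩)
        exact inl_mem_disjSum.1 (hI hxI)
    | inr q =>
      refine Or.inl (mem_filter.2 ⟨hxI, ?_⟩)
      simp only [touch] at hS hT ⊢
      exact mem_inter.2 ⟨hS, hT⟩
  have h4 := (card_le_card h3).trans (card_union_le _ _)
  rw [card_map] at h4
  rw [h2] at h1
  omega

/-- the independent sets -/
def Ind (n K : ℕ) (H : Finset (Finset (Fin L))) (I : Finset (G L)) : Prop :=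
  I ⊆ H.disjSum univ ∧ I.card ≤ n + 1 ∧
    ∀ S : Finset (Fin L), S.card ≤ K → cnt I S + X H S ≤ 2 * S.card

theorem cnt_mono {I J : Finset (G L)} (h : I ⊆ J) (S : Finset (Fin L)) : cnt I S ≤ cnt J S :=
  card_le_card (filter_subset_filter _ h)

theorem X_empty (H : Finset (Finset (Fin L))) : X H ∅ = 0 := by simp [X]

theorem X_single (H : Finset (Finset (Fin L))) {S : Finset (Fin L)} (hS : S.card ≤ 1) :
    X H S = 0 := by
  unfold X
  refine sum_eq_zero fun e _ => ?_
  have : (e ∩ S).card ≤ S.card := card_le_card inter_subset_right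
  omega

theorem not_touch_empty (x : G L) : ¬ touch ∅ x := by
  cases x <;> simp [touch]

theorem cnt_empty (I : Finset (G L)) : cnt I ∅ = 0 := by
  unfold cnt
  rw [card_eq_zero, filter_eq_empty_iff]
  exact fun x _ => not_touch_empty x

variable {n K : ℕ} {H : Finset (Finset (Fin L))}

theorem ind_empty (hH : Good n K H) : Ind n K H ∅ := by
  refine ⟨empty_subset _, by simp, fun S hS => ?_⟩
  have h0 : cnt (∅ : Finset (G L)) S = 0 := by simp [cnt]
  rw [h0]
  rcases Nat.lt_or_ge S.card 2 with h | h
  · rw [X_single H (by omega)]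
    omega
  · have := hH.one S h (by omega)
    omega

theorem ind_subset {I J : Finset (G L)} (hJ : Ind n K H J) (h : I ⊆ J) : Ind n K H I :=
  ⟨h.trans hJ.1, (card_le_card h).trans hJ.2.1, fun S hS =>
    (Nat.add_le_add_right (cnt_mono h S) _).trans (hJ.2.2 S hS)⟩

theorem ind_aug (hH : Good n K H) {I J : Finset (G L)} (hI : Ind n K H I) (hJ : Ind n K H J)
    (hIJ : I.card < J.card) : ∃ x ∈ J, x ∉ I ∧ Ind n K H (insert x I) := by
  by_contra hcon
  push Not at hcon
  have hIn : I.card < n + 1 := hIJ.trans_le hJ.2.1
  -- tight sets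
  have hS : ∀ x, ∃ S : Finset (Fin L), (x ∈ J → x ∉ I →
      (S.card ≤ K ∧ cnt I S + X H S = 2 * S.card) ∧ touch S x) ∧
      (S.card ≤ K ∧ cnt I S + X H S = 2 * S.card) := by
    intro x
    by_cases hx : x ∈ J ∧ x ∉ I
    · obtain ⟨hxJ, hxI⟩ := hx
      have h1 := hcon x hxJ hxI
      unfold Ind at h1
      push Not at h1
      obtain ⟨S, hSK, hS⟩ := h1 (insert_subset (hJ.1 hxJ) hI.1)
        (by rw [card_insert_of_notMem hxI]; omega)
      have h2 := hI.2.2 S hSK
      have h3 : cnt (insert x I) S ≤ cnt I S + if touch S x then 1 else 0 := by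
        unfold cnt
        rw [filter_insert]
        split_ifs with h
        · exact card_insert_le _ _
        · simp
      have h4 : touch S x := by
        by_contra h
        rw [if_neg h] at h3
        omega
      rw [if_pos h4] at h3
      have h5 : S.card ≤ K ∧ cnt I S + X H S = 2 * S.card := ⟨hSK, by omega⟩
      exact ⟨S, fun _ _ => ⟨h5, h4⟩, h5⟩
    · refine ⟨∅, fun h1 h2 => absurd ⟨h1, h2⟩ hx, by simp, ?_⟩
      rw [cnt_empty, X_empty]
      simp
  choose S hS hS' using hS
  have htight : ∀ A B : Finset (Fin L), (A.card ≤ K ∧ cnt I A + X H A = 2 * A.card) →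
      (B.card ≤ K ∧ cnt I B + X H B = 2 * B.card) →
      ((A ⊔ B).card ≤ K ∧ cnt I (A ⊔ B) + X H (A ⊔ B) = 2 * (A ⊔ B).card) := by
    rintro A B ⟨hA, hA'⟩ ⟨hB, hB'⟩
    have h1 := cnt_union hI.1 A B
    have h2 := X_union H A B
    have h3 := card_union_add_card_inter A B
    have h4 : (A ∩ B).card ≤ K := (card_le_card inter_subset_left).trans hA
    have h5 := hI.2.2 _ h4
    rw [Finset.sup_eq_union]
    have h6 : (A ∪ B).card ≤ 2 * K := (card_union_le _ _).trans (by omega)
    have h7 : (A ∪ B).card ≤ K := by
      by_contra hlt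
      have h8 := hH.three (A ∪ B) (by omega) h6
      have h9 : cnt I (A ∪ B) ≤ I.card := card_le_card (filter_subset _ _)
      omega
    have h8 := hI.2.2 _ h7
    exact ⟨h7, by omega⟩
  have hsup := Finset.sup_induction (s := J) (f := S)
    (p := fun A => A.card ≤ K ∧ cnt I A + X H A = 2 * A.card)
    (by simp [cnt_empty, X_empty]) (fun A hA B hB => htight A B hA hB) (fun x _ => hS' x)
  obtain ⟨hT1, hT2⟩ := hsup
  set T := J.sup S with hT
  have h1 := hJ.2.2 T hT1
  have h2 : J.filter (fun x => ¬ touch T x) ⊆ I.filter fun x => ¬ touch T x := by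
    intro x hx
    obtain ⟨hxJ, hxT⟩ := mem_filter.1 hx
    refine mem_filter.2 ⟨?_, hxT⟩
    by_contra hxI
    apply hxT
    have h3 := (hS x hxJ hxI).2
    have h4 : S x ⊆ T := Finset.le_sup (f := S) hxJ
    rw [← union_eq_right.2 h4, touch_union]
    exact Or.inl h3
  have h3 := card_le_card h2
  have h4 := card_filter_add_card_filter_not (s := J) (touch T)
  have h5 := card_filter_add_card_filter_not (s := I) (touch T)
  unfold cnt at h1 hT2
  omega

/-- the matroid -/
def mat (hH : Good n K H) : Matroid (G L) :=
  (IndepMatroid.ofFinset (E := (H.disjSum univ : Finset (G L))) (Ind n K H) (ind_empty hH)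
    (fun _ _ hJ h => ind_subset hJ h) (fun _ _ hI hJ h => ind_aug hH hI hJ h)
    (fun _ hI => Finset.coe_subset.2 hI.1)).matroid

theorem mat_indep (hH : Good n K H) (I : Finset (G L)) :
    (mat hH).Indep (I : Set (G L)) ↔ Ind n K H I := by
  unfold mat
  rw [IndepMatroid.matroid_indep_iff, IndepMatroid.ofFinset_indep]

theorem mat_E (hH : Good n K H) : (mat hH).E = (H.disjSum univ : Finset (G L)) := rfl

/-- the line of a vertex -/
def line (H : Finset (Finset (Fin L))) (l : Fin L) : Set (G L) :=
  {x | x ∈ H.disjSum univ ∧ touch {l} x}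

theorem inr_mem (q : Fin L × Fin 2) : (Sum.inr q : G L) ∈ H.disjSum univ := by simp

theorem inr_mem_line (l : Fin L) (i : Fin 2) : (Sum.inr (l, i) : G L) ∈ line H l := by
  simp [line, touch]

theorem inl_mem_line {e : Finset (Fin L)} (he : e ∈ H) {l : Fin L} (hl : l ∈ e) :
    (Sum.inl e : G L) ∈ line H l := by
  refine ⟨by simpa using he, ?_⟩
  simp only [touch]
  exact ⟨l, by simp [hl]⟩

theorem line_inj : Function.Injective (line H) := by
  intro l l' h
  have := inr_mem_line (H := H) l 0
  rw [h] at this
  simpa [line, touch] using this.2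

/-- small sets are independent -/
theorem ind_small (hH : Good n K H) (hn : 2 ≤ n) {I : Finset (G L)} (hI : I ⊆ H.disjSum univ)
    (h3 : I.card ≤ 3) (h1 : ∀ l : Fin L, cnt I {l} ≤ 2) : Ind n K H I := by
  refine ⟨hI, by omega, fun S hS => ?_⟩
  have hc : cnt I S ≤ I.card := card_le_card (filter_subset _ _)
  rcases Nat.lt_or_ge S.card 2 with h | h
  · rw [X_single H (by omega)]
    rcases Nat.eq_zero_or_pos S.card with h0 | h0
    · rw [card_eq_zero] at h0
      subst h0
      simp [cnt_empty]
    · obtain ⟨l, rfl⟩ := card_eq_one.1 (show S.card = 1 by omega)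
      have := h1 l
      simpa using this
  · have := hH.one S h (by omega)
    omega

theorem simple (hH : Good n K H) (hn : 2 ≤ n) : Joints.IsSimple (mat hH) := by
  intro a ha b hb
  rw [mat_E, Finset.mem_coe] at ha hb
  have h1 : ({a, b} : Set (G L)) = (({a, b} : Finset (G L)) : Set (G L)) := by simp
  rw [h1, mat_indep]
  have h2 : ({a, b} : Finset (G L)).card ≤ 2 := card_le_two
  refine ind_small hH hn (by
    intro x hx
    rw [mem_insert, mem_singleton] at hx
    rcases hx with rfl | rfl <;> assumption) (by omega) fun l => ?_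
  exact (card_le_card (filter_subset _ _)).trans h2

theorem line_rank (hH : Good n K H) (hn : 2 ≤ n) (hK : 1 ≤ K) (l : Fin L) :
    (mat hH).eRk (line H l) = 2 := by
  apply le_antisymm
  · rw [Matroid.eRk_le_iff]
    intro I hIl hI
    have hfin : I.Finite := by
      refine (Finset.finite_toSet (H.disjSum (univ : Finset (Fin L × Fin 2)))).subset ?_
      exact hI.subset_ground
    lift I to Finset (G L) using hfin
    rw [mat_indep] at hI
    have h1 := hI.2.2 {l} (by simpa using hK)
    rw [X_single H (by simp)] at h1
    have h2 : cnt I {l} = I.card := by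
      unfold cnt
      rw [filter_true_of_mem]
      intro x hx
      exact (hIl (by exact_mod_cast hx)).2
    rw [h2, card_singleton] at h1
    rw [Set.encard_coe_eq_coe_finsetCard]
    exact_mod_cast h1
  · rw [Matroid.le_eRk_iff]
    refine ⟨{Sum.inr (l, 0), Sum.inr (l, 1)}, ?_, ?_, ?_⟩
    · intro x hx
      rcases hx with rfl | rfl <;> exact inr_mem_line l _
    · exact simple hH hn _ (by rw [mat_E]; simp) _ (by rw [mat_E]; simp)
    · rw [Set.encard_pair (by simp)]

theorem line_flat (hH : Good n K H) (hn : 2 ≤ n) (hK : 1 ≤ K) (l : Fin L) :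
    (mat hH).IsFlat (line H l) := by
  rw [Matroid.isFlat_iff_closure_eq]
  have hsub : line H l ⊆ (mat hH).E := fun x hx => by
    rw [mat_E]
    exact_mod_cast hx.1
  apply Set.Subset.antisymm
  · intro y hy
    by_contra hyl
    have hyE : y ∈ H.disjSum (univ : Finset (Fin L × Fin 2)) := by
      have := (mat hH).closure_subset_ground _ hy
      rw [mat_E] at this
      exact_mod_cast this
    have hyt : ¬ touch {l} y := fun h => hyl ⟨hyE, h⟩
    have h1 : (mat hH).eRk (insert y (line H l)) ≤ 2 := by
      rw [← line_rank hH hn hK l, ← (mat hH).eRk_closure_eq (line H l)]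
      apply (mat hH).eRk_mono
      intro x hx
      rcases hx with rfl | hx
      · exact hy
      · exact (mat hH).subset_closure _ hsub hx
    have hne0 : y ≠ Sum.inr (l, 0) := by
      rintro rfl
      exact hyt (by simp [touch])
    have hne1 : y ≠ Sum.inr (l, 1) := by
      rintro rfl
      exact hyt (by simp [touch])
    have hcard : ({y, Sum.inr (l, 0), Sum.inr (l, 1)} : Finset (G L)).card = 3 := by
      rw [card_eq_three]
      exact ⟨y, Sum.inr (l, 0), Sum.inr (l, 1), hne0, hne1, by simp, rfl⟩
    have h2 : Ind n K H {y, Sum.inr (l, 0), Sum.inr (l, 1)} := by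
      refine ind_small hH hn ?_ (by rw [hcard]) fun l' => ?_
      · intro x hx
        simp only [mem_insert, mem_singleton] at hx
        rcases hx with rfl | rfl | rfl
        · exact hyE
        · exact inr_mem _
        · exact inr_mem _
      · by_cases hl : l' = l
        · subst hl
          unfold cnt
          have : filter (touch {l'}) ({y, Sum.inr (l', 0), Sum.inr (l', 1)} : Finset (G L))
              ⊆ {Sum.inr (l', 0), Sum.inr (l', 1)} := by
            intro x hx
            simp only [mem_filter, mem_insert, mem_singleton] at hx ⊢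
            rcases hx with ⟨rfl | h | h, h'⟩
            · exact absurd h' hyt
            · exact Or.inl h
            · exact Or.inr h
          exact (card_le_card this).trans card_le_two
        · unfold cnt
          have : filter (touch {l'}) ({y, Sum.inr (l, 0), Sum.inr (l, 1)} : Finset (G L))
              ⊆ {y} := by
            intro x hx
            simp only [mem_filter, mem_insert, mem_singleton] at hx ⊢
            rcases hx with ⟨h | h | h, h'⟩
            · exact h
            · subst h
              exact absurd (by simpa [touch] using h') (Ne.symm hl)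
            · subst h
              exact absurd (by simpa [touch] using h') (Ne.symm hl)
          exact (card_le_card this).trans (by simp)
    rw [← mat_indep hH] at h2
    have h3 := h2.encard_le_eRk_of_subset (X := insert y (line H l)) (by
      intro x hx
      simp only [coe_insert, coe_singleton, Set.mem_insert_iff, Set.mem_singleton_iff] at hx
      rcases hx with rfl | rfl | rfl
      · exact Or.inl rfl
      · exact Or.inr (inr_mem_line l _)
      · exact Or.inr (inr_mem_line l _))
    rw [Set.encard_coe_eq_coe_finsetCard, hcard] at h3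
    have h4 : ((3 : ℕ) : ℕ∞) ≤ (2 : ℕ) := h3.trans h1
    rw [Nat.cast_le] at h4
    omega
  · exact (mat hH).subset_closure _ hsub

theorem joint (hH : Good n K H) (hn : 2 ≤ n) {e : Finset (Fin L)} (he : e ∈ H) :
    Joints.IsJoint (mat hH) n (Set.range (line H)) (Sum.inl e) := by
  have heE : (Sum.inl e : G L) ∈ H.disjSum (univ : Finset (Fin L × Fin 2)) := by simpa using he
  have hen := hH.card e he
  refine ⟨by rw [mat_E]; exact_mod_cast heE, fun i => line H (e.orderEmbOfFin hen i),
    fun i => ⟨⟨_, rfl⟩, inl_mem_line he (orderEmbOfFin_mem e hen i)⟩, ?_⟩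
  let I : Finset (G L) := insert (Sum.inl e) (e.map ⟨fun l => Sum.inr (l, 0), fun a b h => by
    simpa using h⟩)
  have hIcard : I.card = n + 1 := by
    rw [card_insert_of_notMem (by simp), card_map, hen]
  have hI : Ind n K H I := by
    refine ⟨?_, hIcard.le, fun S hS => ?_⟩
    · intro x hx
      rw [mem_insert, mem_map] at hx
      rcases hx with rfl | ⟨l, -, rfl⟩
      · exact heE
      · exact inr_mem _
    · have h1 : cnt I S ≤ (e ∩ S).card + if (e ∩ S).Nonempty then 1 else 0 := by
        unfold cnt
        rw [filter_insert]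
        have h2 : (filter (touch S) (e.map ⟨fun l => (Sum.inr (l, 0) : G L), fun a b h => by
            simpa using h⟩)).card = (e ∩ S).card := by
          rw [filter_map, card_map]
          congr 1
        simp only [touch] at h2 ⊢
        split_ifs with h
        · exact (card_insert_le _ _).trans (by rw [← h2])
        · rw [← h2]
          simp
      split_ifs at h1 with h
      · have := hH.two S (by omega) e he h
        omega
      · rw [not_nonempty_iff_eq_empty] at h
        rw [h, card_empty] at h1
        rcases Nat.lt_or_ge S.card 2 with h' | h'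
        · rw [X_single H (by omega)]
          omega
        · have := hH.one S h' (by omega)
          omega
  rw [← mat_indep hH] at hI
  have h3 := hI.encard_le_eRk_of_subset
    (X := ⋃ i, line H (e.orderEmbOfFin hen i)) (by
      intro x hx
      have hx' : x ∈ I := by exact_mod_cast hx
      rw [mem_insert, mem_map] at hx'
      have hl : ∀ l ∈ e, ∃ i, e.orderEmbOfFin hen i = l := by
        intro l hl
        have : l ∈ Set.range (e.orderEmbOfFin hen) := by
          rw [range_orderEmbOfFin]
          exact_mod_cast hl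
        exact this
      rcases hx' with rfl | ⟨l, hle, rfl⟩
      · have hne : e.Nonempty := card_pos.1 (by omega)
        obtain ⟨l, hle⟩ := hne
        obtain ⟨i, hi⟩ := hl l hle
        exact Set.mem_iUnion.2 ⟨i, inl_mem_line he (orderEmbOfFin_mem e hen i)⟩
      · obtain ⟨i, hi⟩ := hl l hle
        refine Set.mem_iUnion.2 ⟨i, ?_⟩
        rw [hi]
        exact inr_mem_line l 0)
  rw [Set.encard_coe_eq_coe_finsetCard, hIcard] at h3
  exact_mod_cast h3

end Pool.Agent.H644R3.JMat
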