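import Mathlib
import Pool.Agent.H644R3.JointsMat

/-!
Existence of locally sparse hypergraphs with many edges.
-/

set_option autoImplicit false

namespace Pool.Agent.H644R3.JRand

open Finset

section Exp

variable {α : Type*} [DecidableEq α]

/-- expectation over random subsets of `Ω` -/
noncomputable def E (Ω : Finset α) (p : ℝ) (f : Finset α → ℝ) : ℝ :=
  ∑ H ∈ Ω.powerset, p ^ H.card * (1 - p) ^ (Ω \ H).card * f H

theorem E_prod (Ω : Finset α) (p : ℝ) (b : α → ℝ) :
    E Ω p (fun H => ∏ e ∈ H, b e) = ∏ e ∈ Ω, (p * b e + (1 - p)) := by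
  unfold E
  rw [prod_add]
  refine sum_congr rfl fun H _ => ?_
  rw [prod_mul_distrib, prod_const, prod_const]
  ring

theorem E_mono {Ω : Finset α} {p : ℝ} (h0 : 0 ≤ p) (h1 : p ≤ 1) {f g : Finset α → ℝ}
    (h : ∀ H ⊆ Ω, f H ≤ g H) : E Ω p f ≤ E Ω p g := by
  refine sum_le_sum fun H hH => ?_
  refine mul_le_mul_of_nonneg_left (h H (mem_powerset.1 hH)) ?_
  exact mul_nonneg (pow_nonneg h0 _) (pow_nonneg (by linarith) _)

theorem E_sum {ι : Type*} (s : Finset ι) (Ω : Finset α) (p : ℝ) (f : ι → Finset α → ℝ) :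
    E Ω p (fun H => ∑ i ∈ s, f i H) = ∑ i ∈ s, E Ω p (f i) := by
  unfold E
  rw [sum_comm]
  refine sum_congr rfl fun H _ => ?_
  rw [mul_sum]

theorem E_sub (Ω : Finset α) (p : ℝ) (f g : Finset α → ℝ) :
    E Ω p (fun H => f H - g H) = E Ω p f - E Ω p g := by
  unfold E
  rw [← sum_sub_distrib]
  refine sum_congr rfl fun H _ => ?_
  ring

theorem E_mul (Ω : Finset α) (p c : ℝ) (f : Finset α → ℝ) :
    E Ω p (fun H => c * f H) = c * E Ω p f := by
  unfold E
  rw [mul_sum]
  refine sum_congr rfl fun H _ => ?_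
  ring

theorem E_const (Ω : Finset α) (p c : ℝ) : E Ω p (fun _ => c) = c := by
  have h := E_prod Ω p (fun _ => 1)
  simp only [prod_const_one, mul_one, add_sub_cancel] at h
  have h2 := E_mul Ω p c (fun _ => 1)
  rw [h] at h2
  simpa using h2

theorem E_ite {Ω : Finset α} (p : ℝ) (b : α → ℝ) {e : α} (he : e ∈ Ω) :
    E Ω p (fun H => if e ∈ H then ∏ f ∈ H, b f else 0) =
      p * b e * ∏ f ∈ Ω.erase e, (p * b f + (1 - p)) := by
  have h1 : ∀ H : Finset α, (if e ∈ H then ∏ f ∈ H, b f else 0) =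
      ∏ f ∈ H, b f - ∏ f ∈ H, Function.update b e 0 f := by
    intro H
    split_ifs with h
    · rw [prod_eq_zero (f := Function.update b e 0) h (by simp), sub_zero]
    · rw [eq_comm, sub_eq_zero]
      refine prod_congr rfl fun f hf => ?_
      rw [Function.update_of_ne]
      rintro rfl
      exact h hf
  simp only [h1]
  rw [E_sub, E_prod, E_prod, ← mul_prod_erase Ω _ he,
    ← mul_prod_erase Ω (fun f => p * Function.update b e 0 f + (1 - p)) he]
  have h2 : ∏ f ∈ Ω.erase e, (p * Function.update b e 0 f + (1 - p)) =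
      ∏ f ∈ Ω.erase e, (p * b f + (1 - p)) := by
    refine prod_congr rfl fun f hf => ?_
    rw [Function.update_of_ne (ne_of_mem_erase hf)]
  rw [h2, Function.update_self]
  ring

omit [DecidableEq α] in
theorem prod_le_exp {Ω : Finset α} {p : ℝ} (h0 : 0 ≤ p) (h1 : p ≤ 1) {b : α → ℝ}
    (hb : ∀ e, 0 ≤ b e) : ∏ e ∈ Ω, (p * b e + (1 - p)) ≤ Real.exp (∑ e ∈ Ω, p * (b e - 1)) := by
  rw [Real.exp_sum]
  refine prod_le_prod (fun e _ => ?_) (fun e _ => ?_)
  · have := mul_nonneg h0 (hb e)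
    linarith
  · have := Real.add_one_le_exp (p * (b e - 1))
    linarith

end Exp

variable {L : ℕ}

/-- few sets of size `m` contain a given set -/
theorem card_super (m : ℕ) (T : Finset (Fin L)) :
    ((powersetCard m (univ : Finset (Fin L))).filter (T ⊆ ·)).card ≤ L ^ (m - T.card) := by
  have h1 : ((powersetCard m (univ : Finset (Fin L))).filter (T ⊆ ·)).card ≤
      (powersetCard (m - T.card) (univ : Finset (Fin L))).card := by
    refine card_le_card_of_injOn (fun S => S \ T) ?_ ?_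
    · intro S hS
      rw [mem_coe, mem_filter, mem_powersetCard] at hS
      rw [mem_coe, mem_powersetCard]
      exact ⟨subset_univ _, by rw [card_sdiff_of_subset hS.2, hS.1.2]⟩
    · intro S hS S' hS' h
      rw [mem_coe, mem_filter] at hS hS'
      simp only at h
      rw [← sdiff_union_of_subset hS.2, h, sdiff_union_of_subset hS'.2]
  refine h1.trans ?_
  rw [card_powersetCard, card_univ, Fintype.card_fin]
  exact Nat.choose_le_pow _ _

theorem key {n : ℕ} (hn : 2 ≤ n) (hL : 1 ≤ L) {d : ℝ} (hd : 1 ≤ d) (hdL : d ^ 2 ≤ L)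
    (S : Finset (Fin L)) :
    ∑ e ∈ powersetCard n (univ : Finset (Fin L)),
      d / (L : ℝ) ^ (n - 1) * (((L : ℝ) / d) ^ ((e ∩ S).card - 1) - 1) ≤ 2 ^ S.card := by
  have hL0 : (0 : ℝ) < L := by exact_mod_cast hL
  have hd0 : (0 : ℝ) < d := by linarith
  have hz : 1 ≤ (L : ℝ) / d := by
    rw [le_div_iff₀ hd0]
    nlinarith
  rw [← sum_fiberwise_of_maps_to (g := fun e => e ∩ S) (t := S.powerset)
    (fun e _ => mem_powerset.2 inter_subset_right)]
  have h1 : ∀ T ∈ S.powerset, ∑ e ∈ powersetCard n (univ : Finset (Fin L)) with e ∩ S = T,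
      d / (L : ℝ) ^ (n - 1) * (((L : ℝ) / d) ^ ((e ∩ S).card - 1) - 1) ≤ 1 := by
    intro T _
    rw [sum_congr rfl (g := fun _ => d / (L : ℝ) ^ (n - 1) * (((L : ℝ) / d) ^ (T.card - 1) - 1))
      (fun e he => by rw [(mem_filter.1 he).2]), sum_const, nsmul_eq_mul]
    have hcard : ((powersetCard n (univ : Finset (Fin L))).filter (fun e => e ∩ S = T)).card ≤
        L ^ (n - T.card) := by
      refine (card_le_card ?_).trans (card_super n T)
      intro e he
      rw [mem_filter] at he ⊢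
      exact ⟨he.1, by rw [← he.2]; exact inter_subset_left⟩
    rcases Nat.lt_or_ge T.card 2 with hT | hT
    · rw [show T.card - 1 = 0 by omega]
      simp
    · rcases Nat.lt_or_ge n T.card with hnT | hnT
      · have : (powersetCard n (univ : Finset (Fin L))).filter (fun e => e ∩ S = T) = ∅ := by
          rw [filter_eq_empty_iff]
          intro e he h
          have h2 := (mem_powersetCard.1 he).2
          have h3 : T.card ≤ e.card := card_le_card (by rw [← h]; exact inter_subset_left)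
          omega
        rw [this]
        simp
      · obtain ⟨s, hs⟩ := Nat.exists_eq_add_of_le hT
        obtain ⟨r, hr⟩ := Nat.exists_eq_add_of_le hnT
        have hcard' : (((powersetCard n (univ : Finset (Fin L))).filter
            (fun e => e ∩ S = T)).card : ℝ) ≤ (L : ℝ) ^ r := by
          rw [hr, Nat.add_sub_cancel_left] at hcard
          exact_mod_cast (hr ▸ hcard)
        have h2 : (0 : ℝ) ≤ d / (L : ℝ) ^ (n - 1) * (((L : ℝ) / d) ^ (T.card - 1) - 1) := by
          refine mul_nonneg (by positivity) ?_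
          have := one_le_pow₀ hz (n := T.card - 1)
          linarith
        refine (mul_le_mul_of_nonneg_right hcard' h2).trans ?_
        have h3 : d / (L : ℝ) ^ (n - 1) * (((L : ℝ) / d) ^ (T.card - 1) - 1) ≤
            d / (L : ℝ) ^ (n - 1) * (((L : ℝ) / d) ^ (T.card - 1)) := by
          refine mul_le_mul_of_nonneg_left (by linarith) (by positivity)
        refine (mul_le_mul_of_nonneg_left h3 (by positivity)).trans ?_
        rw [show n - 1 = s + 1 + r by omega, show T.card - 1 = s + 1 by omega]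
        have h4 : (L : ℝ) ^ r * (d / (L : ℝ) ^ (s + 1 + r) * ((L : ℝ) / d) ^ (s + 1)) =
            1 / d ^ s := by
          rw [div_pow, pow_add (L : ℝ) (s + 1) r, pow_succ d s]
          field_simp
        rw [h4, div_le_one (by positivity)]
        exact one_le_pow₀ hd
  refine (sum_le_sum h1).trans ?_
  rw [sum_const, card_powerset, nsmul_eq_mul, mul_one]
  push_cast
  exact le_refl _

open JMat

section Main

variable {n : ℕ} {d : ℝ}

theorem pow_X (z : ℝ) (H : Finset (Finset (Fin L))) (S : Finset (Fin L)) :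
    z ^ X H S = ∏ e ∈ H, z ^ ((e ∩ S).card - 1) := by
  unfold X
  rw [prod_pow_eq_pow_sum]

theorem p_bounds (hn : 2 ≤ n) (hL : 2 ≤ L) (hd : 1 ≤ d) (hdL : d ^ 2 ≤ L) :
    0 < d / (L : ℝ) ^ (n - 1) ∧ d / (L : ℝ) ^ (n - 1) < 1 := by
  have hL0 : (2 : ℝ) ≤ L := by exact_mod_cast hL
  refine ⟨by positivity, ?_⟩
  rw [div_lt_one (by positivity)]
  have h1 : (L : ℝ) ^ 1 ≤ (L : ℝ) ^ (n - 1) := pow_le_pow_right₀ (by linarith) (by omega)
  rw [pow_one] at h1
  refine lt_of_lt_of_le ?_ h1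
  by_contra hcon
  push Not at hcon
  nlinarith

theorem z_ge (_hL : 2 ≤ L) (hd : 1 ≤ d) (hdL : d ^ 2 ≤ L) : 1 ≤ (L : ℝ) / d := by
  rw [le_div_iff₀ (by linarith)]
  nlinarith

theorem E_X (hn : 2 ≤ n) (hL : 2 ≤ L) (hd : 1 ≤ d) (hdL : d ^ 2 ≤ L) (S : Finset (Fin L)) :
    E (powersetCard n (univ : Finset (Fin L))) (d / (L : ℝ) ^ (n - 1))
      (fun H => ((L : ℝ) / d) ^ X H S) ≤ Real.exp (2 ^ S.card) := by
  have hp := p_bounds hn hL hd hdL
  have hz := z_ge hL hd hdL
  simp only [pow_X]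
  rw [E_prod]
  refine (prod_le_exp hp.1.le hp.2.le (fun e => by positivity)).trans ?_
  exact Real.exp_le_exp.2 (key hn (by omega) hd hdL S)

theorem E_Xe (hn : 2 ≤ n) (hL : 2 ≤ L) (hd : 1 ≤ d) (hdL : d ^ 2 ≤ L) {S e : Finset (Fin L)}
    (he : e ∈ powersetCard n (univ : Finset (Fin L))) (heS : e ⊆ S) :
    E (powersetCard n (univ : Finset (Fin L))) (d / (L : ℝ) ^ (n - 1))
      (fun H => if e ∈ H then ((L : ℝ) / d) ^ X H S else 0) ≤
      d / (L : ℝ) ^ (n - 1) * ((L : ℝ) / d) ^ (n - 1) * Real.exp (2 ^ S.card) := by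
  have hp := p_bounds hn hL hd hdL
  have hz := z_ge hL hd hdL
  simp only [pow_X]
  rw [E_ite _ _ he, inter_eq_left.2 heS, (mem_powersetCard.1 he).2]
  refine mul_le_mul_of_nonneg_left ?_ (by positivity)
  refine (prod_le_exp hp.1.le hp.2.le (fun e => by positivity)).trans ?_
  refine Real.exp_le_exp.2 ((sum_le_sum_of_subset_of_nonneg (erase_subset _ _) ?_).trans
    (key hn (by omega) hd hdL S))
  intro f _ _
  refine mul_nonneg hp.1.le ?_
  have := one_le_pow₀ hz (n := (f ∩ S).card - 1)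
  linarith

theorem E_bad (hn : 2 ≤ n) (hL : 2 ≤ L) (hd : 1 ≤ d) (hdL : d ^ 2 ≤ L) (v : ℕ)
    {S : Finset (Fin L)} (hS : S.card = v) :
    E (powersetCard n (univ : Finset (Fin L))) (d / (L : ℝ) ^ (n - 1))
      (fun H => if 2 * v ≤ X H S + n then 1 else 0) ≤
      Real.exp (2 ^ v) / ((L : ℝ) / d) ^ (2 * v - n) := by
  have hp := p_bounds hn hL hd hdL
  have hz := z_ge hL hd hdL
  have h1 := E_X hn hL hd hdL S
  rw [hS] at h1
  have h2 : ∀ H ⊆ powersetCard n (univ : Finset (Fin L)),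
      (if 2 * v ≤ X H S + n then (1 : ℝ) else 0) ≤
        (((L : ℝ) / d) ^ (2 * v - n))⁻¹ * ((L : ℝ) / d) ^ X H S := by
    intro H _
    split_ifs with h
    · rw [inv_mul_eq_div, one_le_div (by positivity)]
      exact pow_le_pow_right₀ hz (by omega)
    · positivity
  refine (E_mono hp.1.le hp.2.le h2).trans ?_
  rw [E_mul, inv_mul_eq_div]
  gcongr

theorem E_bade (hn : 2 ≤ n) (hL : 2 ≤ L) (hd : 1 ≤ d) (hdL : d ^ 2 ≤ L) (v : ℕ)
    {S e : Finset (Fin L)} (hS : S.card = v)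
    (he : e ∈ powersetCard n (univ : Finset (Fin L))) (heS : e ⊆ S) :
    E (powersetCard n (univ : Finset (Fin L))) (d / (L : ℝ) ^ (n - 1))
      (fun H => if e ∈ H ∧ 2 * v ≤ X H S + n then 1 else 0) ≤
      d / (L : ℝ) ^ (n - 1) * ((L : ℝ) / d) ^ (n - 1) * Real.exp (2 ^ v) /
        ((L : ℝ) / d) ^ (2 * v - n) := by
  have hp := p_bounds hn hL hd hdL
  have hz := z_ge hL hd hdL
  have h1 := E_Xe hn hL hd hdL he heS
  rw [hS] at h1
  have h2 : ∀ H ⊆ powersetCard n (univ : Finset (Fin L)),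
      (if e ∈ H ∧ 2 * v ≤ X H S + n then (1 : ℝ) else 0) ≤
        (((L : ℝ) / d) ^ (2 * v - n))⁻¹ * (if e ∈ H then ((L : ℝ) / d) ^ X H S else 0) := by
    intro H _
    split_ifs with h h' h'
    · rw [inv_mul_eq_div, one_le_div (by positivity)]
      exact pow_le_pow_right₀ hz (by omega)
    · exact absurd h.1 h'
    · positivity
    · simp
  refine (E_mono hp.1.le hp.2.le h2).trans ?_
  rw [E_mul, inv_mul_eq_div]
  gcongr

/-- bad large sets -/
noncomputable def Bc (n K : ℕ) (H : Finset (Finset (Fin L))) : ℝ :=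
  ∑ v ∈ Ioc K (2 * K), ∑ S ∈ powersetCard v (univ : Finset (Fin L)),
    if 2 * v ≤ X H S + n then 1 else 0

/-- bad pairs -/
noncomputable def Ac (n K : ℕ) (H : Finset (Finset (Fin L))) : ℝ :=
  ∑ e ∈ powersetCard n (univ : Finset (Fin L)), ∑ v ∈ Icc n (2 * K + n),
    ∑ S ∈ (powersetCard v (univ : Finset (Fin L))).filter (e ⊆ ·),
      if e ∈ H ∧ 2 * v ≤ X H S + n then 1 else 0

theorem E_Bc (hn : 2 ≤ n) (hL : 2 ≤ L) (hd : 1 ≤ d) (hdL : d ^ 2 ≤ L) (K : ℕ) :
    E (powersetCard n (univ : Finset (Fin L))) (d / (L : ℝ) ^ (n - 1)) (Bc n K) ≤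
      ∑ v ∈ Ioc K (2 * K), (L : ℝ) ^ v * (Real.exp (2 ^ v) / ((L : ℝ) / d) ^ (2 * v - n)) := by
  have hz := z_ge hL hd hdL
  unfold Bc
  rw [E_sum]
  refine sum_le_sum fun v _ => ?_
  rw [E_sum]
  refine (sum_le_sum fun S hS => E_bad hn hL hd hdL v (mem_powersetCard.1 hS).2).trans ?_
  rw [sum_const, nsmul_eq_mul, card_powersetCard, card_univ, Fintype.card_fin]
  refine mul_le_mul_of_nonneg_right ?_ (by positivity)
  exact_mod_cast Nat.choose_le_pow _ _

theorem E_Ac (hn : 2 ≤ n) (hL : 2 ≤ L) (hd : 1 ≤ d) (hdL : d ^ 2 ≤ L) (K : ℕ) :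
    E (powersetCard n (univ : Finset (Fin L))) (d / (L : ℝ) ^ (n - 1)) (Ac n K) ≤
      (∑ v ∈ Icc n (2 * K + n), Real.exp (2 ^ v)) * d ^ 2 := by
  have hz := z_ge hL hd hdL
  have hL0 : (0 : ℝ) < L := by
    have : (2 : ℝ) ≤ L := by exact_mod_cast hL
    linarith
  have hd0 : (0 : ℝ) < d := by linarith
  unfold Ac
  rw [E_sum]
  have h1 : ∀ e ∈ powersetCard n (univ : Finset (Fin L)),
      E (powersetCard n (univ : Finset (Fin L))) (d / (L : ℝ) ^ (n - 1)) (fun H =>
        ∑ v ∈ Icc n (2 * K + n), ∑ S ∈ (powersetCard v (univ : Finset (Fin L))).filter (e ⊆ ·),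
          if e ∈ H ∧ 2 * v ≤ X H S + n then 1 else 0) ≤
      ∑ v ∈ Icc n (2 * K + n), (L : ℝ) ^ (v - n) * (d / (L : ℝ) ^ (n - 1) *
        ((L : ℝ) / d) ^ (n - 1) * Real.exp (2 ^ v) / ((L : ℝ) / d) ^ (2 * v - n)) := by
    intro e he
    rw [E_sum]
    refine sum_le_sum fun v _ => ?_
    rw [E_sum]
    refine (sum_le_sum fun S hS => E_bade hn hL hd hdL v
      (mem_powersetCard.1 (mem_filter.1 hS).1).2 he (mem_filter.1 hS).2).trans ?_
    rw [sum_const, nsmul_eq_mul]
    refine mul_le_mul_of_nonneg_right ?_ (by positivity)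
    have := card_super v e
    rw [(mem_powersetCard.1 he).2] at this
    exact_mod_cast this
  refine (sum_le_sum h1).trans ?_
  rw [sum_const, nsmul_eq_mul, card_powersetCard, card_univ, Fintype.card_fin, sum_mul, mul_sum]
  refine sum_le_sum fun v hv => ?_
  rw [mem_Icc] at hv
  have h2 : ((L.choose n : ℕ) : ℝ) ≤ (L : ℝ) ^ n := by exact_mod_cast Nat.choose_le_pow _ _
  refine (mul_le_mul_of_nonneg_right h2 (by positivity)).trans ?_
  obtain ⟨k, rfl⟩ := Nat.exists_eq_add_of_le hv.1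
  obtain ⟨m, rfl⟩ := Nat.exists_eq_add_of_le' (show 1 ≤ n by omega)
  rw [Nat.add_sub_cancel_left, Nat.add_sub_cancel,
    show 2 * (m + 1 + k) - (m + 1) = m + (2 * k + 1) by omega]
  have h3 : ∀ A : ℝ, (L : ℝ) ^ (m + 1) * ((L : ℝ) ^ k * (d / (L : ℝ) ^ m * ((L : ℝ) / d) ^ m *
      A / ((L : ℝ) / d) ^ (m + (2 * k + 1)))) = A * (d ^ 2 * (d ^ 2 / L) ^ k) := by
    intro A
    have e1 : ((L : ℝ) / d) ^ (m + (2 * k + 1)) =
        (L : ℝ) ^ m * (((L : ℝ) ^ k) ^ 2 * L) / (d ^ m * ((d ^ k) ^ 2 * d)) := by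
      rw [div_pow]
      ring
    have e2 : (d ^ 2 / L) ^ k = (d ^ k) ^ 2 / (L : ℝ) ^ k := by
      rw [div_pow]
      ring
    rw [e1, e2, div_pow, pow_succ (L : ℝ) m]
    field_simp
  rw [h3]
  refine mul_le_mul_of_nonneg_left ?_ (by positivity)
  have h4 : (d ^ 2 / L) ^ k ≤ 1 := pow_le_one₀ (by positivity) (by rw [div_le_one hL0]; exact hdL)
  nlinarith [sq_nonneg d]

theorem E_card :
    d / (L : ℝ) ^ (n - 1) * (L.choose n : ℝ) =
    E (powersetCard n (univ : Finset (Fin L))) (d / (L : ℝ) ^ (n - 1))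
      (fun H => ∑ e ∈ powersetCard n (univ : Finset (Fin L)), if e ∈ H then 1 else 0) := by
  rw [E_sum]
  have h1 : ∀ e ∈ powersetCard n (univ : Finset (Fin L)),
      E (powersetCard n (univ : Finset (Fin L))) (d / (L : ℝ) ^ (n - 1))
        (fun H => if e ∈ H then 1 else 0) = d / (L : ℝ) ^ (n - 1) := by
    intro e he
    have := E_ite (d / (L : ℝ) ^ (n - 1)) (fun _ => 1) he
    simpa using this
  rw [sum_congr rfl h1, sum_const, nsmul_eq_mul, card_powersetCard, card_univ, Fintype.card_fin]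
  ring

theorem X_mono {H H' : Finset (Finset (Fin L))} (h : H ⊆ H') {S S' : Finset (Fin L)}
    (hS : S ⊆ S') : X H S ≤ X H' S' := by
  unfold X
  refine (sum_le_sum fun e _ => ?_).trans (sum_le_sum_of_subset h)
  have : (e ∩ S).card ≤ (e ∩ S').card := card_le_card (inter_subset_inter_left hS)
  omega

theorem exists_good {K : ℕ} (hn : 2 ≤ n) (_hK : n ≤ K) (hL : 2 ≤ L) (hd : 1 ≤ d)
    (hdL : d ^ 2 ≤ L) {R : ℝ} (hR0 : 0 < R)
    (hR : R ≤ d / (L : ℝ) ^ (n - 1) * (L.choose n : ℝ) -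
      (∑ v ∈ Icc n (2 * K + n), Real.exp (2 ^ v)) * d ^ 2 -
      (L : ℝ) ^ n * ∑ v ∈ Ioc K (2 * K),
        (L : ℝ) ^ v * (Real.exp (2 ^ v) / ((L : ℝ) / d) ^ (2 * v - n))) :
    ∃ H : Finset (Finset (Fin L)), Good n K H ∧ R ≤ H.card := by
  have hp := p_bounds hn hL hd hdL
  have hz := z_ge hL hd hdL
  set Ω := powersetCard n (univ : Finset (Fin L)) with hΩ
  set p := d / (L : ℝ) ^ (n - 1) with hpdef
  -- the first moment argument
  have hE : R ≤ E Ω p (fun H => (∑ e ∈ Ω, if e ∈ H then 1 else 0) - Ac n K H -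
      (L : ℝ) ^ n * Bc n K H) := by
    rw [E_sub, E_sub, E_mul, ← E_card]
    have h1 := E_Ac hn hL hd hdL K
    have h2 := mul_le_mul_of_nonneg_left (E_Bc hn hL hd hdL K)
      (show (0 : ℝ) ≤ (L : ℝ) ^ n by positivity)
    linarith
  obtain ⟨H, hHΩ, hH⟩ : ∃ H ⊆ Ω, R ≤ (∑ e ∈ Ω, if e ∈ H then (1 : ℝ) else 0) - Ac n K H -
      (L : ℝ) ^ n * Bc n K H := by
    rw [← E_const Ω p R] at hE
    unfold E at hE
    obtain ⟨H, hH, hle⟩ := exists_le_of_sum_le ⟨∅, empty_mem_powerset _⟩ hE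
    refine ⟨H, mem_powerset.1 hH, ?_⟩
    refine le_of_mul_le_mul_left hle ?_
    exact mul_pos (pow_pos hp.1 _) (pow_pos (by linarith) _)
  have hHcard : (∑ e ∈ Ω, if e ∈ H then (1 : ℝ) else 0) = H.card := by
    rw [sum_ite_mem, inter_eq_right.2 hHΩ, sum_const, nsmul_eq_mul, mul_one]
  rw [hHcard] at hH
  have hA0 : 0 ≤ Ac n K H := by
    unfold Ac
    refine sum_nonneg fun e _ => sum_nonneg fun v _ => sum_nonneg fun S _ => ?_
    split_ifs <;> norm_num
  have hB0 : 0 ≤ Bc n K H := by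
    unfold Bc
    refine sum_nonneg fun v _ => sum_nonneg fun S _ => ?_
    split_ifs <;> norm_num
  have hHle : (H.card : ℝ) ≤ (L : ℝ) ^ n := by
    have h1 := card_le_card hHΩ
    rw [hΩ, card_powersetCard, card_univ, Fintype.card_fin] at h1
    exact_mod_cast h1.trans (Nat.choose_le_pow _ _)
  have hB : ∀ S : Finset (Fin L), K < S.card → S.card ≤ 2 * K → X H S + (n + 1) ≤ 2 * S.card := by
    intro S hS1 hS2
    by_contra hcon
    have h1 : (1 : ℝ) ≤ Bc n K H := by
      unfold Bc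
      have h2 : (1 : ℝ) ≤ ∑ S' ∈ powersetCard S.card (univ : Finset (Fin L)),
          if 2 * S.card ≤ X H S' + n then (1 : ℝ) else 0 := by
        refine le_trans ?_ (single_le_sum (f := fun S' => if 2 * S.card ≤ X H S' + n
          then (1 : ℝ) else 0) (fun S' _ => by split_ifs <;> norm_num)
          (mem_powersetCard.2 ⟨subset_univ S, rfl⟩))
        rw [if_pos (by omega)]
      refine h2.trans (single_le_sum (f := fun v => ∑ S' ∈ powersetCard v
        (univ : Finset (Fin L)), if 2 * v ≤ X H S' + n then (1 : ℝ) else 0)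
        (fun v _ => sum_nonneg fun S' _ => by split_ifs <;> norm_num) (mem_Ioc.2 ⟨hS1, hS2⟩))
    have h3 : (L : ℝ) ^ n * 1 ≤ (L : ℝ) ^ n * Bc n K H :=
      mul_le_mul_of_nonneg_left h1 (by positivity)
    linarith
  let H' := H.filter fun e => ∀ S : Finset (Fin L), e ⊆ S → S.card ≤ 2 * K + n →
    X H S + (n + 1) ≤ 2 * S.card
  have hH'H : H' ⊆ H := filter_subset _ _
  have hA : ((H.filter fun e => ¬ ∀ S : Finset (Fin L), e ⊆ S → S.card ≤ 2 * K + n →
    X H S + (n + 1) ≤ 2 * S.card).card : ℝ) ≤ Ac n K H := by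
    rw [card_eq_sum_ones]
    push_cast
    unfold Ac
    refine le_trans (sum_le_sum fun e he => ?_)
      (sum_le_sum_of_subset_of_nonneg ((filter_subset (fun e => ¬ ∀ S : Finset (Fin L), e ⊆ S →
        S.card ≤ 2 * K + n → X H S + (n + 1) ≤ 2 * S.card) H).trans hHΩ)
      (fun e _ _ => sum_nonneg fun v _ => sum_nonneg fun S _ => by split_ifs <;> norm_num))
    rw [mem_filter] at he
    obtain ⟨heH, he⟩ := he
    push Not at he
    obtain ⟨S, heS, hSc, hS⟩ := he
    have hec : e.card = n := (mem_powersetCard.1 (hHΩ heH)).2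
    have h2 : (1 : ℝ) ≤ ∑ S' ∈ (powersetCard S.card (univ : Finset (Fin L))).filter (e ⊆ ·),
        if e ∈ H ∧ 2 * S.card ≤ X H S' + n then (1 : ℝ) else 0 := by
      refine le_trans ?_ (single_le_sum (f := fun S' => if e ∈ H ∧ 2 * S.card ≤ X H S' + n
        then (1 : ℝ) else 0) (fun S' _ => by split_ifs <;> norm_num)
        (mem_filter.2 ⟨mem_powersetCard.2 ⟨subset_univ S, rfl⟩, heS⟩))
      rw [if_pos ⟨heH, by omega⟩]
    refine h2.trans (single_le_sum (f := fun v => ∑ S' ∈ (powersetCard v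
      (univ : Finset (Fin L))).filter (e ⊆ ·), if e ∈ H ∧ 2 * v ≤ X H S' + n then (1 : ℝ) else 0)
      (fun v _ => sum_nonneg fun S' _ => by split_ifs <;> norm_num) (mem_Icc.2 ⟨?_, hSc⟩))
    rw [← hec]
    exact card_le_card heS
  have hsplit := card_filter_add_card_filter_not (s := H) (fun e => ∀ S : Finset (Fin L), e ⊆ S →
    S.card ≤ 2 * K + n → X H S + (n + 1) ≤ 2 * S.card)
  have hsplit' : (H'.card : ℝ) + ((H.filter fun e => ¬ ∀ S : Finset (Fin L), e ⊆ S →
      S.card ≤ 2 * K + n → X H S + (n + 1) ≤ 2 * S.card).card : ℝ) = H.card := by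
    exact_mod_cast hsplit
  have hcard : ∀ e ∈ H', e.card = n := fun e he => (mem_powersetCard.1 (hHΩ (hH'H he))).2
  have htwo : ∀ S : Finset (Fin L), S.card ≤ 2 * K → ∀ e ∈ H', (e ∩ S).Nonempty →
      X H' S + (e ∩ S).card + 1 ≤ 2 * S.card := by
    intro S hS e he hne
    have h1 := card_union_add_card_inter e S
    have hec := hcard e he
    have h2 := (mem_filter.1 he).2 (e ∪ S) subset_union_left (by omega)
    have h3 : X H' (e ∪ S) ≤ X H (e ∪ S) := X_mono hH'H subset_rfl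
    have h4 : X H' S + (n - (e ∩ S).card) ≤ X H' (e ∪ S) := by
      unfold X
      rw [← sum_erase_add _ _ he, ← sum_erase_add _ _ he]
      have h5 : ∑ f ∈ H'.erase e, ((f ∩ S).card - 1) ≤
          ∑ f ∈ H'.erase e, ((f ∩ (e ∪ S)).card - 1) := by
        refine sum_le_sum fun f _ => ?_
        have : (f ∩ S).card ≤ (f ∩ (e ∪ S)).card :=
          card_le_card (inter_subset_inter_left subset_union_right)
        omega
      have h6 : e ∩ (e ∪ S) = e := inter_eq_left.2 subset_union_left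
      rw [h6]
      have h7 := card_pos.2 hne
      have h8 : (e ∩ S).card ≤ e.card := card_le_card inter_subset_left
      omega
    have h8 : (e ∩ S).card ≤ e.card := card_le_card inter_subset_left
    omega
  refine ⟨H', ⟨hcard, ?_, htwo, ?_⟩, ?_⟩
  · intro S hS1 hS2
    by_cases h : ∃ e ∈ H', 2 ≤ (e ∩ S).card
    · obtain ⟨e, he, h2⟩ := h
      have := htwo S hS2 e he (card_pos.1 (by omega))
      omega
    · push Not at h
      have : X H' S = 0 := by
        unfold X
        refine sum_eq_zero fun e he => ?_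
        have := h e he
        omega
      omega
  · intro S hS1 hS2
    have h1 := hB S hS1 hS2
    have h3 : X H' S ≤ X H S := X_mono hH'H subset_rfl
    omega
  · have h1 : 0 ≤ (L : ℝ) ^ n * Bc n K H := by positivity
    linarith

end Main

end Pool.Agent.H644R3.JRand
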