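import Mathlib

/-!
# Rado's theorem and two disjoint independent transversals
-/

set_option autoImplicit false

namespace Pool.Agent.H644R3.RadoSR

open Classical

variable {α : Type}

/-- the rank of a finite set, as a natural number -/
noncomputable def rk (M : Matroid α) (A : Finset α) : ℕ := (M.eRk (A : Set α)).toNat

lemma coe_rk (M : Matroid α) (A : Finset α) : (rk M A : ℕ∞) = M.eRk (A : Set α) := by
  unfold rk
  apply ENat.natCast_toNat
  intro h
  have h1 := M.eRk_le_encard (A : Set α)
  rw [h, Set.encard_coe_eq_coe_finsetCard] at h1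
  exact ENat.natCast_ne_top _ (top_le_iff.mp h1)

lemma rk_mono (M : Matroid α) {A B : Finset α} (h : A ⊆ B) : rk M A ≤ rk M B := by
  have h1 := M.eRk_mono (Finset.coe_subset.mpr h)
  rw [← coe_rk, ← coe_rk] at h1
  exact_mod_cast h1

lemma rk_le_card (M : Matroid α) (A : Finset α) : rk M A ≤ A.card := by
  have h1 := M.eRk_le_encard (A : Set α)
  rw [← coe_rk, Set.encard_coe_eq_coe_finsetCard] at h1
  exact_mod_cast h1

lemma rk_submod (M : Matroid α) (A B : Finset α) :
    rk M (A ∩ B) + rk M (A ∪ B) ≤ rk M A + rk M B := by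
  have h1 := M.eRk_inter_add_eRk_union_le (A : Set α) (B : Set α)
  rw [← Finset.coe_inter, ← Finset.coe_union, ← coe_rk, ← coe_rk, ← coe_rk, ← coe_rk] at h1
  exact_mod_cast h1

lemma rk_indep (M : Matroid α) {A : Finset α} (h : M.Indep (A : Set α)) : rk M A = A.card := by
  have h1 := h.eRk_eq_encard
  rw [← coe_rk, Set.encard_coe_eq_coe_finsetCard] at h1
  exact_mod_cast h1

lemma indep_of_rk (M : Matroid α) {A : Finset α} (h : rk M A = A.card) :
    M.Indep (A : Set α) := by
  rw [Matroid.indep_iff_eRk_eq_encard_of_finite A.finite_toSet, ← coe_rk, h,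
    Set.encard_coe_eq_coe_finsetCard]

/-- **Rado's theorem.** -/
theorem rado {ι : Type} [Fintype ι] (M : Matroid α) : ∀ (s : ℕ) (A : ι → Finset α),
    ∑ i, (A i).card = s → (∀ I : Finset ι, I.card ≤ rk M (I.biUnion A)) →
    ∃ f : ι → α, (∀ i, f i ∈ A i) ∧ Function.Injective f ∧ M.Indep (Set.range f) := by
  intro s
  induction s using Nat.strong_induction_on with
  | _ s ih =>
    intro A hs hA
    by_cases h1 : ∀ i, (A i).card ≤ 1
    · have h2 : ∀ i, ∃ a, A i = {a} := by
        intro i
        rw [← Finset.card_eq_one]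
        have h3 := hA {i}
        rw [Finset.card_singleton, Finset.singleton_biUnion] at h3
        have h4 := rk_le_card M (A i)
        have h5 := h1 i
        omega
      choose f hf using h2
      have h3 : Finset.univ.biUnion A = Finset.univ.image f := by
        ext x
        simp [hf, eq_comm]
      have h4 := hA Finset.univ
      rw [h3] at h4
      have h5 := rk_le_card M (Finset.univ.image f)
      have h6 : (Finset.univ.image f).card ≤ (Finset.univ : Finset ι).card := Finset.card_image_le
      refine ⟨f, fun i => by rw [hf]; exact Finset.mem_singleton_self _, ?_, ?_⟩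
      · have h7 := Finset.card_image_iff.mp (le_antisymm h6 (h4.trans h5))
        intro a b hab
        exact h7 (Finset.mem_coe.mpr (Finset.mem_univ a)) (Finset.mem_coe.mpr (Finset.mem_univ b)) hab
      · have h7 := indep_of_rk M (A := Finset.univ.image f) (by omega)
        rwa [Finset.coe_image, Finset.coe_univ, Set.image_univ] at h7
    · push Not at h1
      obtain ⟨i, hi⟩ := h1
      obtain ⟨x, hx, y, hy, hxy⟩ := Finset.one_lt_card.mp hi
      have key : ∀ z ∈ A i, (∀ I : Finset ι, I.card ≤
          rk M (I.biUnion (Function.update A i ((A i).erase z)))) →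
          ∃ f : ι → α, (∀ i, f i ∈ A i) ∧ Function.Injective f ∧ M.Indep (Set.range f) := by
        intro z hz h2
        have hlt : ∑ j, (Function.update A i ((A i).erase z) j).card < s := by
          rw [← hs]
          apply Finset.sum_lt_sum
          · intro j _
            by_cases hj : j = i
            · subst hj
              rw [Function.update_self]
              exact Finset.card_le_card (Finset.erase_subset _ _)
            · rw [Function.update_of_ne hj]
          · refine ⟨i, Finset.mem_univ i, ?_⟩
            rw [Function.update_self]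
            exact Finset.card_erase_lt_of_mem hz
        obtain ⟨f, hf1, hf2, hf3⟩ := ih _ hlt _ rfl h2
        refine ⟨f, fun j => ?_, hf2, hf3⟩
        have h3 := hf1 j
        by_cases hj : j = i
        · subst hj
          rw [Function.update_self] at h3
          exact Finset.mem_of_mem_erase h3
        · rwa [Function.update_of_ne hj] at h3
      by_contra hcon
      have hx' : ¬ ∀ I : Finset ι, I.card ≤
          rk M (I.biUnion (Function.update A i ((A i).erase x))) := fun h => hcon (key x hx h)
      have hy' : ¬ ∀ I : Finset ι, I.card ≤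
          rk M (I.biUnion (Function.update A i ((A i).erase y))) := fun h => hcon (key y hy h)
      push Not at hx' hy'
      obtain ⟨I, hI⟩ := hx'
      obtain ⟨J, hJ⟩ := hy'
      have hmem : ∀ (K : Finset ι) (z : α), rk M (K.biUnion (Function.update A i ((A i).erase z)))
          < K.card → i ∈ K := by
        intro K z hK
        by_contra hiK
        have h2 : K.biUnion (Function.update A i ((A i).erase z)) = K.biUnion A := by
          apply Finset.biUnion_congr rfl
          intro j hj
          rw [Function.update_of_ne]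
          rintro rfl
          exact hiK hj
        rw [h2] at hK
        exact absurd (hA K) (not_le.mpr hK)
      have hiI := hmem I x hI
      have hiJ := hmem J y hJ
      set U := I.biUnion (Function.update A i ((A i).erase x)) with hU
      set V := J.biUnion (Function.update A i ((A i).erase y)) with hV
      have h2 : (I ∪ J).biUnion A ⊆ U ∪ V := by
        intro z hz
        rw [Finset.mem_biUnion] at hz
        obtain ⟨j, hj, hzj⟩ := hz
        by_cases hji : j = i
        · subst hji
          by_cases hzx : z = x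
          · apply Finset.mem_union_right
            rw [hV, Finset.mem_biUnion]
            refine ⟨j, hiJ, ?_⟩
            rw [Function.update_self, Finset.mem_erase]
            exact ⟨by rw [hzx]; exact hxy, hzj⟩
          · apply Finset.mem_union_left
            rw [hU, Finset.mem_biUnion]
            refine ⟨j, hiI, ?_⟩
            rw [Function.update_self, Finset.mem_erase]
            exact ⟨hzx, hzj⟩
        · rw [Finset.mem_union] at hj
          rcases hj with hj | hj
          · apply Finset.mem_union_left
            rw [hU, Finset.mem_biUnion]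
            exact ⟨j, hj, by rwa [Function.update_of_ne hji]⟩
          · apply Finset.mem_union_right
            rw [hV, Finset.mem_biUnion]
            exact ⟨j, hj, by rwa [Function.update_of_ne hji]⟩
      have h3 : ((I ∩ J).erase i).biUnion A ⊆ U ∩ V := by
        intro z hz
        rw [Finset.mem_biUnion] at hz
        obtain ⟨j, hj, hzj⟩ := hz
        rw [Finset.mem_erase, Finset.mem_inter] at hj
        rw [Finset.mem_inter, hU, hV, Finset.mem_biUnion, Finset.mem_biUnion]
        exact ⟨⟨j, hj.2.1, by rwa [Function.update_of_ne hj.1]⟩,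
          ⟨j, hj.2.2, by rwa [Function.update_of_ne hj.1]⟩⟩
      have h4 := (hA (I ∪ J)).trans (rk_mono M h2)
      have h5 := (hA ((I ∩ J).erase i)).trans (rk_mono M h3)
      have h6 := rk_submod M U V
      have h7 := Finset.card_union_add_card_inter I J
      have h8 : ((I ∩ J).erase i).card = (I ∩ J).card - 1 :=
        Finset.card_erase_of_mem (Finset.mem_inter.mpr ⟨hiI, hiJ⟩)
      have h9 : 0 < (I ∩ J).card := Finset.card_pos.mpr ⟨i, Finset.mem_inter.mpr ⟨hiI, hiJ⟩⟩
      omega

/-- the sets `F i` are covered, with multiplicities, by `k` independent sets -/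
def Cov (M : Matroid α) {k : ℕ} (F : Fin k → Finset α) (c : Fin k → α → Fin k) : Prop :=
  (∀ j : Fin k, ∀ i i' : Fin k, ∀ x : α,
    x ∈ F i → x ∈ F i' → c i x = j → c i' x = j → i = i') ∧
  (∀ j : Fin k, M.Indep {x : α | ∃ i : Fin k, x ∈ F i ∧ c i x = j})

/-- counting with multiplicities -/
theorem count {M : Matroid α} {k : ℕ} {F : Fin k → Finset α} {c : Fin k → α → Fin k}
    (hc : Cov M F c) (A : Fin k → Finset α) (hA : ∀ i, A i ⊆ F i) (I : Finset (Fin k))
    (W : Finset α) (hW : ∀ i ∈ I, A i ⊆ W) : ∑ i ∈ I, (A i).card ≤ k * rk M W := by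
  rw [← Finset.card_sigma]
  rw [Finset.card_eq_sum_card_fiberwise (f := fun p : Σ _ : Fin k, α => c p.1 p.2)
    (t := Finset.univ) (fun _ _ => by simp)]
  have h1 : ∀ j ∈ (Finset.univ : Finset (Fin k)),
      ((I.sigma A).filter (fun p => c p.1 p.2 = j)).card ≤ rk M W := by
    intro j _
    set S := (I.sigma A).filter (fun p => c p.1 p.2 = j) with hS
    have hS1 : ∀ p ∈ S, p.1 ∈ I ∧ p.2 ∈ A p.1 ∧ c p.1 p.2 = j := by
      intro p hp
      rw [hS, Finset.mem_filter, Finset.mem_sigma] at hp
      exact ⟨hp.1.1, hp.1.2, hp.2⟩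
    have h2 : (S.image (fun p => p.2)).card = S.card := by
      apply Finset.card_image_of_injOn
      rintro ⟨i, x⟩ hp ⟨i', x'⟩ hq hxx
      have hp' := hS1 _ (Finset.mem_coe.mp hp)
      have hq' := hS1 _ (Finset.mem_coe.mp hq)
      simp only at hp' hq' hxx
      subst hxx
      have h3 := hc.1 j i i' x (hA i hp'.2.1) (hA i' hq'.2.1) hp'.2.2 hq'.2.2
      subst h3
      rfl
    have h3 : S.image (fun p => p.2) ⊆ W := by
      intro x hx
      rw [Finset.mem_image] at hx
      obtain ⟨p, hp, rfl⟩ := hx
      exact hW p.1 (hS1 p hp).1 (hS1 p hp).2.1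
    have h4 : M.Indep ((S.image (fun p => p.2) : Finset α) : Set α) := by
      apply (hc.2 j).subset
      intro x hx
      rw [Finset.mem_coe, Finset.mem_image] at hx
      obtain ⟨p, hp, rfl⟩ := hx
      exact ⟨p.1, hA _ (hS1 p hp).2.1, (hS1 p hp).2.2⟩
    rw [← h2, ← rk_indep M h4]
    exact rk_mono M h3
  calc ∑ j : Fin k, ((I.sigma A).filter (fun p => c p.1 p.2 = j)).card
      ≤ ∑ _j : Fin k, rk M W := Finset.sum_le_sum h1
    _ = k * rk M W := by rw [Finset.sum_const, Finset.card_univ, Fintype.card_fin, smul_eq_mul]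

/-- `f` is an `M`-SR of `A` -/
def SR (M : Matroid α) {k : ℕ} (A : Fin k → Finset α) (f : Fin k → α) : Prop :=
  (∀ i, f i ∈ A i) ∧ Function.Injective f ∧ M.Indep (Set.range f)

lemma SR.mono {M : Matroid α} {k : ℕ} {A B : Fin k → Finset α} {f : Fin k → α} (h : SR M A f)
    (hAB : ∀ i, A i ⊆ B i) : SR M B f := ⟨fun i => hAB i (h.1 i), h.2⟩

/-- there is an `M`-SR that avoids any given `k - 1` occurrences -/
theorem avoid {M : Matroid α} {k : ℕ} {F : Fin k → Finset α} {c : Fin k → α → Fin k}
    (hF : ∀ i, (F i).card = k) (hc : Cov M F c) (R : Fin k → Finset α) (hR : ∀ i, R i ⊆ F i)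
    (hk : ∑ i, (R i).card < k) : ∃ f, SR M (fun i => F i \ R i) f := by
  apply rado M _ _ rfl
  intro I
  rcases Finset.eq_empty_or_nonempty I with rfl | hne
  · simp
  have h1 := count hc (fun i => F i \ R i) (fun i => Finset.sdiff_subset) I
    (I.biUnion fun i => F i \ R i) (fun i hi => Finset.subset_biUnion_of_mem
      (fun i => F i \ R i) hi)
  have h2 : ∑ i ∈ I, (F i \ R i).card + ∑ i ∈ I, (R i).card = k * I.card := by
    rw [← Finset.sum_add_distrib]
    rw [Finset.sum_congr rfl (fun i _ => by
      rw [Finset.card_sdiff_add_card_eq_card (hR i), hF i] :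
      ∀ i ∈ I, (F i \ R i).card + (R i).card = k)]
    rw [Finset.sum_const, smul_eq_mul, mul_comm]
  have h3 : ∑ i ∈ I, (R i).card ≤ ∑ i, (R i).card :=
    Finset.sum_le_sum_of_subset (Finset.subset_univ I)
  by_contra hcon
  push Not at hcon
  have h4 : k * rk M (I.biUnion fun i => F i \ R i) ≤ k * (I.card - 1) :=
    Nat.mul_le_mul_left k (by omega)
  have h5 : 0 < I.card := hne.card_pos
  obtain ⟨m, hm⟩ : ∃ m, I.card = m + 1 := ⟨I.card - 1, by omega⟩
  rw [hm] at h2 h4
  simp only [Nat.add_sub_cancel] at h4
  rw [mul_add, mul_one] at h2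
  omega

/-- removing an `M`-SR: if Rado's condition fails then it fails for all classes together -/
theorem fail {M : Matroid α} {k : ℕ} {F : Fin k → Finset α} {c : Fin k → α → Fin k}
    (hk : 2 ≤ k) (hF : ∀ i, (F i).card = k) (hc : Cov M F c) (f : Fin k → α)
    (hf : ∀ i, f i ∈ F i) (hno : ¬ ∃ h, SR M (fun i => (F i).erase (f i)) h) :
    rk M (Finset.univ.biUnion fun i => (F i).erase (f i)) ≤ k - 1 := by
  have h0 : ¬ ∀ I : Finset (Fin k), I.card ≤ rk M (I.biUnion fun i => (F i).erase (f i)) :=
    fun h => hno (rado M _ _ rfl h)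
  push Not at h0
  obtain ⟨I, hI⟩ := h0
  have h1 := count hc (fun i => (F i).erase (f i)) (fun i => Finset.erase_subset _ _) I
    (I.biUnion fun i => (F i).erase (f i)) (fun i hi => Finset.subset_biUnion_of_mem
      (fun i => (F i).erase (f i)) hi)
  have h2 : ∑ i ∈ I, ((F i).erase (f i)).card = (k - 1) * I.card := by
    rw [Finset.sum_congr rfl (fun i _ => by
      rw [Finset.card_erase_of_mem (hf i), hF i] :
      ∀ i ∈ I, ((F i).erase (f i)).card = k - 1)]
    rw [Finset.sum_const, smul_eq_mul, mul_comm]
  have h3 : I.card ≤ k := by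
    have := Finset.card_le_univ I
    rwa [Fintype.card_fin] at this
  have h4 : I.card = k := by
    obtain ⟨m, hm⟩ : ∃ m, I.card = m + 1 := ⟨I.card - 1, by omega⟩
    obtain ⟨l, hl⟩ : ∃ l, k = l + 1 := ⟨k - 1, by omega⟩
    have h5 : k * rk M (I.biUnion fun i => (F i).erase (f i)) ≤ k * m :=
      Nat.mul_le_mul_left k (by omega)
    rw [h2] at h1
    have h6 : (k - 1) * I.card ≤ k * m := h1.trans h5
    rw [hm, hl] at h6
    simp only [Nat.add_sub_cancel] at h6
    have h7 : l * (m + 1) = l * m + l := by ring
    have h8 : (l + 1) * m = l * m + m := by ring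
    omega
  have h5 : I = Finset.univ := by
    rw [← Finset.card_eq_iff_eq_univ, h4, Fintype.card_fin]
  rw [h5] at hI
  rw [Finset.card_univ, Fintype.card_fin] at hI
  omega

/-- **Two disjoint `M`-SRs.** -/
theorem two {M : Matroid α} {k : ℕ} {F : Fin k → Finset α} {c : Fin k → α → Fin k}
    (hk : 2 ≤ k) (hF : ∀ i, (F i).card = k) (hc : Cov M F c) :
    ∃ f g, SR M F f ∧ SR M F g ∧ ∀ i, f i ≠ g i := by
  obtain ⟨f, hf⟩ := avoid hF hc (fun _ => ∅) (fun i => Finset.empty_subset _) (by simp; omega)
  have hf' : SR M F f := hf.mono fun i => Finset.sdiff_subset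
  let i0 : Fin k := ⟨0, by omega⟩
  obtain ⟨g, hg⟩ := avoid hF hc (fun i => if i = i0 then {f i0} else ∅) (fun i => by
    split_ifs with h
    · subst h; exact Finset.singleton_subset_iff.mpr (hf'.1 i0)
    · exact Finset.empty_subset _) (by
      have : ∀ i : Fin k, (if i = i0 then ({f i0} : Finset α) else ∅).card =
          if i = i0 then 1 else 0 := by
        intro i; split_ifs <;> simp
      simp only [this]
      rw [Finset.sum_ite_eq']
      simp
      omega)
  have hg' : SR M F g := hg.mono fun i => Finset.sdiff_subset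
  have hne : f i0 ≠ g i0 := by
    have h1 := hg.1 i0
    simp only [if_true, Finset.mem_sdiff, Finset.mem_singleton] at h1
    exact fun h => h1.2 h.symm
  by_cases hfg : ∀ i, f i ≠ g i
  · exact ⟨f, g, hf', hg', hfg⟩
  push Not at hfg
  obtain ⟨e, he⟩ := hfg
  by_cases hA : ∃ h, SR M (fun i => (F i).erase (f i)) h
  · obtain ⟨h, hh⟩ := hA
    exact ⟨f, h, hf', hh.mono fun i => Finset.erase_subset _ _, fun i heq =>
      (Finset.mem_erase.mp (hh.1 i)).1 heq.symm⟩
  by_cases hB : ∃ h, SR M (fun i => (F i).erase (g i)) h
  · obtain ⟨h, hh⟩ := hB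
    exact ⟨g, h, hg', hh.mono fun i => Finset.erase_subset _ _, fun i heq =>
      (Finset.mem_erase.mp (hh.1 i)).1 heq.symm⟩
  exfalso
  have hU := fail hk hF hc f hf'.1 hA
  have hV := fail hk hF hc g hg'.1 hB
  set A : Fin k → Finset α := fun i => (F i).erase (f i) with hAdef
  set B : Fin k → Finset α := fun i => (F i).erase (g i) with hBdef
  set U := Finset.univ.biUnion A with hUdef
  set V := Finset.univ.biUnion B with hVdef
  have hcA : ∀ i, (A i).card = k - 1 := fun i => by
    rw [hAdef]; simp only; rw [Finset.card_erase_of_mem (hf'.1 i), hF i]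
  have hcB : ∀ i, (B i).card = k - 1 := fun i => by
    rw [hBdef]; simp only; rw [Finset.card_erase_of_mem (hg'.1 i), hF i]
  have hAU : ∀ i, A i ⊆ U := fun i => Finset.subset_biUnion_of_mem A (Finset.mem_univ i)
  have hBV : ∀ i, B i ⊆ V := fun i => Finset.subset_biUnion_of_mem B (Finset.mem_univ i)
  have hx := count hc (fun i => A i ∪ B i)
    (fun i => Finset.union_subset (Finset.erase_subset _ _) (Finset.erase_subset _ _))
    Finset.univ (U ∪ V) (fun i _ => Finset.union_subset_union (hAU i) (hBV i))
  have hy := count hc (fun i => A i ∩ B i)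
    (fun i => Finset.inter_subset_left.trans (Finset.erase_subset _ _))
    Finset.univ (U ∩ V) (fun i _ => Finset.inter_subset_inter (hAU i) (hBV i))
  have hsub := rk_submod M U V
  -- sizes
  have hX : k * (k - 1) < ∑ i, (A i ∪ B i).card := by
    have h1 : ∑ _i : Fin k, (k - 1) < ∑ i, (A i ∪ B i).card := by
      apply Finset.sum_lt_sum
      · intro i _
        rw [← hcA i]
        exact Finset.card_le_card Finset.subset_union_left
      · refine ⟨i0, Finset.mem_univ _, ?_⟩
        have h2 : A i0 ∪ B i0 = F i0 := by
          apply Finset.Subset.antisymm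
          · exact Finset.union_subset (Finset.erase_subset _ _) (Finset.erase_subset _ _)
          · intro x hx
            by_cases hxf : x = f i0
            · apply Finset.mem_union_right
              exact Finset.mem_erase.mpr ⟨by rw [hxf]; exact hne, hx⟩
            · apply Finset.mem_union_left
              exact Finset.mem_erase.mpr ⟨hxf, hx⟩
        rw [h2, hF]
        omega
    rwa [Finset.sum_const, Finset.card_univ, Fintype.card_fin, smul_eq_mul] at h1
  have hY : k * (k - 2) < ∑ i, (A i ∩ B i).card := by
    have h1 : ∑ _i : Fin k, (k - 2) < ∑ i, (A i ∩ B i).card := by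
      apply Finset.sum_lt_sum
      · intro i _
        have h2 := Finset.card_union_add_card_inter (A i) (B i)
        rw [hcA, hcB] at h2
        have h3 : (A i ∪ B i).card ≤ k := by
          rw [← hF i]
          exact Finset.card_le_card
            (Finset.union_subset (Finset.erase_subset _ _) (Finset.erase_subset _ _))
        omega
      · refine ⟨e, Finset.mem_univ _, ?_⟩
        have h2 : A e = B e := by rw [hAdef, hBdef]; simp only; rw [he]
        rw [← h2, Finset.inter_self, hcA]
        omega
    rwa [Finset.sum_const, Finset.card_univ, Fintype.card_fin, smul_eq_mul] at h1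
  have h1 : k - 1 < rk M (U ∪ V) := lt_of_mul_lt_mul_left (hX.trans_le hx) (Nat.zero_le k)
  have h2 : k - 2 < rk M (U ∩ V) := lt_of_mul_lt_mul_left (hY.trans_le hy) (Nat.zero_le k)
  omega

end Pool.Agent.H644R3.RadoSR
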